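import Pool.Agent.H946.Z.Stm2
import Pool.Agent.H946.Z.Basic
set_option autoImplicit false

/-!
# `90 F0cl` over an arbitrary commutative ring
-/

namespace Pool.Agent.H946.T4

open PowerSeries
open Pool.Agent.H946.Z (uu GG wG F0cl FA FB Li cc HH EE2)

noncomputable section

variable (A : Type) [CommRing A]

/-- `Li_j(m)`. -/
def LiA (j m : ℕ) : A⟦X⟧ :=
  PowerSeries.mk fun n => if n ≠ 0 ∧ m ∣ n then ((n / m : ℕ) : A) ^ j else 0

/-- `2 c_k`. -/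
def C2A (k : ℕ) : A⟦X⟧ := 2 * uu A k - 1

/-- `2 H_k`. -/
def H2A (k : ℕ) : A⟦X⟧ := ∑ j ∈ Finset.Ico 1 k, C2A A j

/-- `4 E_k`. -/
def E4A (k : ℕ) : A⟦X⟧ := ∑ j ∈ Finset.Ico 1 k, C2A A j * H2A A j

/-- `30 R0`. -/
def R0A (k m : ℕ) : A⟦X⟧ :=
  108 * LiA A 5 m + 40 * LiA A 3 m + 2 * LiA A 1 m +
    150 * (C2A A k * LiA A 4 m) + 480 * (LiA A 1 k * LiA A 3 m) + 360 * (LiA A 2 k * LiA A 2 m) -
    240 * (LiA A 3 k * LiA A 1 m) - 60 * (LiA A 4 k * C2A A m)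

/-- `30 R1`. -/
def R1A (k m : ℕ) : A⟦X⟧ :=
  108 * LiA A 6 m + 40 * LiA A 4 m + 2 * LiA A 2 m +
    150 * (C2A A k * LiA A 5 m) + 480 * (LiA A 1 k * LiA A 4 m) + 360 * (LiA A 2 k * LiA A 3 m) -
    240 * (LiA A 3 k * LiA A 2 m) - 120 * (LiA A 4 k * LiA A 1 m)

/-- `30 R2`. -/
def R2A (k : ℕ) : A⟦X⟧ :=
  48 * LiA A 7 k + 10 * LiA A 5 k + 2 * LiA A 3 k +
    60 * (C2A A k * LiA A 6 k) + 120 * (LiA A 1 k * LiA A 5 k) -
    240 * (LiA A 3 k * LiA A 3 k) - 120 * (LiA A 4 k * LiA A 2 k)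

/-- `90 FA`. -/
def FAA (k : ℕ) : A⟦X⟧ :=
  (k : A⟦X⟧) * (X ^ k * uu A k ^ 2 *
    (((k : A⟦X⟧) - 1) * ((k : A⟦X⟧) + 4) * R0A A k k + 6 * (E4A A k * R0A A k k) -
      6 * (H2A A k * R1A A k k) + 3 * R2A A k))

/-- `90 FB`. -/
def FBA (k n : ℕ) : A⟦X⟧ :=
  (k : A⟦X⟧) * (X ^ (k + n) * uu A k * uu A n * uu A (n + k) *
    (12 * ((H2A A n + H2A A (n + k)) * R0A A k (n + k)) - 12 * R1A A k (n + k)))

/-- `90 F0cl`. -/
def F0A : A⟦X⟧ :=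
  PowerSeries.mk fun N => PowerSeries.coeff N
    (∑ k ∈ Finset.Icc 1 N, FAA A k + ∑ k ∈ Finset.Icc 1 N, ∑ n ∈ Finset.Icc 1 N, FBA A k n)

/-- `G_{a,l}`. -/
def GGA (i : ℕ × ℕ) : A⟦X⟧ :=
  PowerSeries.mk fun n => (n : A) ^ i.2 * ∑ d ∈ n.divisors, (d : A) ^ (2 * i.1 + 2)

variable {A}
variable {A' : Type} [CommRing A'] (φ : A →+* A')

theorem map_uu (k : ℕ) : PowerSeries.map φ (uu A k) = uu A' k := by
  ext n
  unfold uu
  rw [PowerSeries.coeff_map, PowerSeries.coeff_mk, PowerSeries.coeff_mk, apply_ite φ, map_one,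
    map_zero]

theorem map_LiA (j m : ℕ) : PowerSeries.map φ (LiA A j m) = LiA A' j m := by
  ext n
  unfold LiA
  rw [PowerSeries.coeff_map, PowerSeries.coeff_mk, PowerSeries.coeff_mk, apply_ite φ, map_pow,
    map_natCast, map_zero]

theorem map_C2A (k : ℕ) : PowerSeries.map φ (C2A A k) = C2A A' k := by
  unfold C2A
  rw [map_sub, map_mul, map_uu, map_one, map_ofNat]

theorem map_H2A (k : ℕ) : PowerSeries.map φ (H2A A k) = H2A A' k := by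
  unfold H2A
  rw [map_sum]
  exact Finset.sum_congr rfl fun j _ => map_C2A φ j

theorem map_E4A (k : ℕ) : PowerSeries.map φ (E4A A k) = E4A A' k := by
  unfold E4A
  rw [map_sum]
  refine Finset.sum_congr rfl fun j _ => ?_
  rw [map_mul, map_C2A, map_H2A]

theorem map_R0A (k m : ℕ) : PowerSeries.map φ (R0A A k m) = R0A A' k m := by
  unfold R0A
  simp only [map_sub, map_add, map_mul, map_LiA, map_C2A, map_ofNat]

theorem map_R1A (k m : ℕ) : PowerSeries.map φ (R1A A k m) = R1A A' k m := by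
  unfold R1A
  simp only [map_sub, map_add, map_mul, map_LiA, map_C2A, map_ofNat]

theorem map_R2A (k : ℕ) : PowerSeries.map φ (R2A A k) = R2A A' k := by
  unfold R2A
  simp only [map_sub, map_add, map_mul, map_LiA, map_C2A, map_ofNat]

theorem map_FAA (k : ℕ) : PowerSeries.map φ (FAA A k) = FAA A' k := by
  unfold FAA
  simp only [map_sub, map_add, map_mul, map_pow, map_R0A, map_R1A, map_R2A, map_E4A, map_H2A,
    map_uu, map_ofNat, map_natCast, map_one, PowerSeries.map_X]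

theorem map_FBA (k n : ℕ) : PowerSeries.map φ (FBA A k n) = FBA A' k n := by
  unfold FBA
  simp only [map_sub, map_add, map_mul, map_pow, map_R0A, map_R1A, map_H2A,
    map_uu, map_ofNat, map_natCast, PowerSeries.map_X]

theorem map_F0A : PowerSeries.map φ (F0A A) = F0A A' := by
  ext N
  unfold F0A
  rw [PowerSeries.coeff_map, PowerSeries.coeff_mk, PowerSeries.coeff_mk,
    ← PowerSeries.coeff_map, map_add, map_sum, map_sum]
  congr 2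
  · exact Finset.sum_congr rfl fun k _ => map_FAA φ k
  · refine Finset.sum_congr rfl fun k _ => ?_
    rw [map_sum]
    exact Finset.sum_congr rfl fun n _ => map_FBA φ k n

theorem map_GGA (i : ℕ × ℕ) : PowerSeries.map φ (GGA A i) = GGA A' i := by
  ext n
  unfold GGA
  rw [PowerSeries.coeff_map, PowerSeries.coeff_mk, PowerSeries.coeff_mk, map_mul, map_pow,
    map_natCast, map_sum]
  congr 1
  refine Finset.sum_congr rfl fun d _ => ?_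
  rw [map_pow, map_natCast]

theorem GGA_rat (i : ℕ × ℕ) : GGA ℚ i = GG i := rfl

/-! ## comparison with the definitions over `ℚ` -/

theorem LiA_rat (j m : ℕ) : LiA ℚ j m = Li j m := rfl

theorem C2A_rat (k : ℕ) : C2A ℚ k = 2 * cc k := by
  unfold C2A cc
  have : (2 : ℚ⟦X⟧) * PowerSeries.C (1 / 2 : ℚ) = 1 := by
    have e : (2 : ℚ⟦X⟧) = PowerSeries.C (2 : ℚ) := (map_ofNat (PowerSeries.C (R := ℚ)) 2).symm
    rw [e, ← map_mul]
    norm_num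
  rw [mul_sub, this]

theorem H2A_rat (k : ℕ) : H2A ℚ k = 2 * HH k := by
  unfold H2A HH
  rw [Finset.mul_sum]
  exact Finset.sum_congr rfl fun j _ => C2A_rat j

theorem E4A_rat (k : ℕ) : E4A ℚ k = 4 * EE2 k := by
  unfold E4A EE2
  rw [Finset.mul_sum]
  refine Finset.sum_congr rfl fun j _ => ?_
  rw [C2A_rat, H2A_rat]
  ring

theorem smul_eq (c : ℚ) (f : ℚ⟦X⟧) : c • f = PowerSeries.C c * f := by
  rw [PowerSeries.smul_eq_C_mul]

theorem ofNat_eq_C (n : ℕ) [n.AtLeastTwo] :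
    (OfNat.ofNat n : ℚ⟦X⟧) = PowerSeries.C (OfNat.ofNat n : ℚ) :=
  (map_ofNat (PowerSeries.C (R := ℚ)) n).symm

theorem R0A_rat (k m : ℕ) : R0A ℚ k m = 30 * Pool.Agent.H946.Z.R0 k m := by
  unfold R0A Pool.Agent.H946.Z.R0
  simp only [LiA_rat, C2A_rat, smul_eq]
  have h1 : (30 : ℚ⟦X⟧) * PowerSeries.C (18 / 5 : ℚ) = 108 := by
    rw [ofNat_eq_C 30, ofNat_eq_C 108, ← map_mul]; norm_num
  have h2 : (30 : ℚ⟦X⟧) * PowerSeries.C (4 / 3 : ℚ) = 40 := by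
    rw [ofNat_eq_C 30, ofNat_eq_C 40, ← map_mul]; norm_num
  have h3 : (30 : ℚ⟦X⟧) * PowerSeries.C (1 / 15 : ℚ) = 2 := by
    rw [ofNat_eq_C 30, ofNat_eq_C 2, ← map_mul]; norm_num
  rw [← ofNat_eq_C 10, ← ofNat_eq_C 16, ← ofNat_eq_C 12, ← ofNat_eq_C 8, ← ofNat_eq_C 4]
  linear_combination (-Li 5 m) * h1 + (-Li 3 m) * h2 + (-Li 1 m) * h3

theorem R1A_rat (k m : ℕ) : R1A ℚ k m = 30 * Pool.Agent.H946.Z.R1 k m := by
  unfold R1A Pool.Agent.H946.Z.R1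
  simp only [LiA_rat, C2A_rat, smul_eq]
  have h1 : (30 : ℚ⟦X⟧) * PowerSeries.C (18 / 5 : ℚ) = 108 := by
    rw [ofNat_eq_C 30, ofNat_eq_C 108, ← map_mul]; norm_num
  have h2 : (30 : ℚ⟦X⟧) * PowerSeries.C (4 / 3 : ℚ) = 40 := by
    rw [ofNat_eq_C 30, ofNat_eq_C 40, ← map_mul]; norm_num
  have h3 : (30 : ℚ⟦X⟧) * PowerSeries.C (1 / 15 : ℚ) = 2 := by
    rw [ofNat_eq_C 30, ofNat_eq_C 2, ← map_mul]; norm_num
  rw [← ofNat_eq_C 10, ← ofNat_eq_C 16, ← ofNat_eq_C 12, ← ofNat_eq_C 8, ← ofNat_eq_C 4]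
  linear_combination (-Li 6 m) * h1 + (-Li 4 m) * h2 + (-Li 2 m) * h3

theorem R2A_rat (k : ℕ) : R2A ℚ k = 30 * Pool.Agent.H946.Z.R2 k := by
  unfold R2A Pool.Agent.H946.Z.R2
  simp only [LiA_rat, C2A_rat, smul_eq]
  have h1 : (30 : ℚ⟦X⟧) * PowerSeries.C (8 / 5 : ℚ) = 48 := by
    rw [ofNat_eq_C 30, ofNat_eq_C 48, ← map_mul]; norm_num
  have h2 : (30 : ℚ⟦X⟧) * PowerSeries.C (1 / 3 : ℚ) = 10 := by
    rw [ofNat_eq_C 30, ofNat_eq_C 10, ← map_mul]; norm_num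
  have h3 : (30 : ℚ⟦X⟧) * PowerSeries.C (1 / 15 : ℚ) = 2 := by
    rw [ofNat_eq_C 30, ofNat_eq_C 2, ← map_mul]; norm_num
  rw [← ofNat_eq_C 8, ← ofNat_eq_C 4]
  linear_combination (-Li 7 k) * h1 + (-Li 5 k) * h2 + (-Li 3 k) * h3

theorem FAA_rat (k : ℕ) : FAA ℚ k = 90 * FA k := by
  unfold FAA FA
  rw [R0A_rat, R1A_rat, R2A_rat, E4A_rat, H2A_rat]
  simp only [smul_eq]
  have h1 : (90 : ℚ⟦X⟧) * PowerSeries.C (((k : ℚ) - 1) * ((k : ℚ) + 4) / 3) =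
      30 * (((k : ℚ⟦X⟧) - 1) * ((k : ℚ⟦X⟧) + 4)) := by
    have e1 : (k : ℚ⟦X⟧) = PowerSeries.C (k : ℚ) := by simp
    have e2 : (1 : ℚ⟦X⟧) = PowerSeries.C (1 : ℚ) := by simp
    rw [ofNat_eq_C 30, ofNat_eq_C 90, ofNat_eq_C 4, e1, e2, ← map_sub, ← map_add, ← map_mul,
      ← map_mul, ← map_mul]
    congr 1
    ring
  have e1 : PowerSeries.C (k : ℚ) = (k : ℚ⟦X⟧) := by simp
  rw [← ofNat_eq_C 8, ← ofNat_eq_C 4, e1]
  linear_combination (-(k : ℚ⟦X⟧) * (X ^ k * uu ℚ k ^ 2) * Pool.Agent.H946.Z.R0 k k) * h1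

theorem FBA_rat (k n : ℕ) : FBA ℚ k n = 90 * FB k n := by
  unfold FBA FB
  rw [R0A_rat, R1A_rat, H2A_rat, H2A_rat]
  simp only [smul_eq]
  have e1 : PowerSeries.C (k : ℚ) = (k : ℚ⟦X⟧) := by simp
  rw [← ofNat_eq_C 8, ← ofNat_eq_C 4, e1]
  ring

theorem F0A_rat : F0A ℚ = 90 * F0cl := by
  ext N
  have e : (90 : ℚ⟦X⟧) = PowerSeries.C (90 : ℚ) := ofNat_eq_C 90
  rw [e, PowerSeries.coeff_C_mul]
  unfold F0A F0cl
  rw [PowerSeries.coeff_mk, PowerSeries.coeff_mk, ← PowerSeries.coeff_C_mul, ← e, mul_add,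
    Finset.mul_sum, Finset.mul_sum]
  congr 2
  · exact Finset.sum_congr rfl fun k _ => FAA_rat k
  · refine Finset.sum_congr rfl fun k _ => ?_
    rw [Finset.mul_sum]
    exact Finset.sum_congr rfl fun n _ => FBA_rat k n

end

end Pool.Agent.H946.T4
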