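import Pool.Agent.H946.T4.Rep
import Pool.Agent.H946.T4.Gen
set_option autoImplicit false
set_option linter.constructorNameAsVariable false

/-!
# the code `cF` represents `90 F0cl` modulo 127
-/

namespace Pool.Agent.H946.T4

open PowerSeries
open Pool.Agent.H946.Z (uu GG wG F0cl)

noncomputable section

/-- the field with 127 elements. -/
abbrev FF127 : Type := ZMod 127

/-- numerals. -/
theorem RepK.num {K c : ℕ} {f : FF127⟦X⟧} (a b : ℕ) (hab : (a : FF127) = (b : FF127)) (h : RepK K c f) :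
    RepK (a * K) (Nat.mul a c) ((b : FF127⟦X⟧) * f) := by
  have := h.smul a
  have e : (a : FF127⟦X⟧) = (b : FF127⟦X⟧) := by
    rw [← map_natCast (PowerSeries.C (R := FF127)) a, ← map_natCast (PowerSeries.C (R := FF127)) b, hab]
  rwa [e] at this

theorem RepK.numneg {K c : ℕ} {f : FF127⟦X⟧} (a b : ℕ) (hab : (a : FF127) = -(b : FF127)) (h : RepK K c f) :
    RepK (a * K) (Nat.mul a c) (-((b : FF127⟦X⟧) * f)) := by
  have := h.smul a
  have e : (a : FF127⟦X⟧) = -(b : FF127⟦X⟧) := by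
    rw [← map_natCast (PowerSeries.C (R := FF127)) a, ← map_natCast (PowerSeries.C (R := FF127)) b, hab,
      map_neg]
  rw [e] at this
  rwa [neg_mul] at this

theorem RepK.cast {K c : ℕ} {f g : FF127⟦X⟧} (h : RepK K c f) (e : f = g) : RepK K c g := e ▸ h

theorem Red.cast {c : ℕ} {f g : FF127⟦X⟧} (h : Red c f) (e : f = g) : Red c g := e ▸ h

theorem beq_mod {n k : ℕ} : Nat.beq (Nat.mod n k) 0 = true ↔ k ∣ n := by
  rw [Nat.beq_eq]
  exact (Nat.dvd_iff_mod_eq_zero).symm

theorem red_cU (k : ℕ) : Red (cU k) (uu FF127 k) := by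
  unfold cU
  apply red_enc
  intro n _
  unfold uu
  rw [PowerSeries.coeff_mk]
  by_cases h : k ∣ n
  · rw [beq_mod.2 h, if_pos h]
    simp
  · have : Nat.beq (Nat.mod n k) 0 = false := by
      rw [← Bool.not_eq_true]
      exact fun h' => h (beq_mod.1 h')
    rw [this, if_neg h]
    simp

theorem red_cLi (j k : ℕ) (hj : 1 ≤ j) : Red (cLi j k) (LiA FF127 j k) := by
  unfold cLi
  apply red_enc
  intro n _
  unfold LiA
  rw [PowerSeries.coeff_mk]
  by_cases h : k ∣ n
  · rw [beq_mod.2 h, cond_true]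
    constructor
    · have := Nat.mod_lt (Nat.pow (Nat.div n k) j) (by norm_num : 0 < 127)
      exact Nat.lt_succ_iff.1 this
    · have e : ((Nat.mod (Nat.pow (Nat.div n k) j) 127 : ℕ) : FF127) = ((n / k : ℕ) : FF127) ^ j := by
        show (((n / k) ^ j % 127 : ℕ) : FF127) = _
        rw [ZMod.natCast_mod, Nat.cast_pow]
      rw [e]
      by_cases hn : n = 0
      · subst hn
        rw [if_neg (fun h' => h'.1 rfl), Nat.zero_div, Nat.cast_zero, zero_pow (by omega)]
      · rw [if_pos ⟨hn, h⟩]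
  · have : Nat.beq (Nat.mod n k) 0 = false := by
      rw [← Bool.not_eq_true]
      exact fun h' => h (beq_mod.1 h')
    rw [this, if_neg (fun h' => h h'.2)]
    simp

theorem rep_const (a : ℕ) : RepK a a ((a : ℕ) : FF127⟦X⟧) := by
  refine ⟨Polynomial.C a, by simp, ?_, ?_⟩
  · intro n
    rw [Polynomial.coeff_C]
    split_ifs
    · exact le_rfl
    · exact Nat.zero_le _
  · intro n _
    rw [← map_natCast (PowerSeries.C (R := FF127)) a, PowerSeries.coeff_C, Polynomial.coeff_C]
    split_ifs <;> simp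

theorem red_one : Red 1 (1 : FF127⟦X⟧) := by
  refine ⟨1, by simp, ?_, ?_, ?_⟩
  · intro n
    rw [Polynomial.coeff_one]
    split_ifs <;> omega
  · intro n hn
    rw [Polynomial.coeff_one, if_neg (by omega)]
  · intro n _
    rw [Polynomial.coeff_one, PowerSeries.coeff_one]
    split_ifs <;> simp

theorem red_zero' : Red 0 (0 : FF127⟦X⟧) := ⟨0, by simp, by simp, by simp, by simp⟩

theorem red_cC (k : ℕ) : Red (cC k) (C2A FF127 k) := by
  unfold cC
  refine (red_of_rep (((red_cU k).rep.num 2 2 rfl).add (rep_const 126)) (by norm_num)).cast ?_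
  unfold C2A
  have e : ((126 : ℕ) : FF127⟦X⟧) = -1 := by
    rw [← map_natCast (PowerSeries.C (R := FF127)) 126]
    have : ((126 : ℕ) : FF127) = -1 := by decide
    rw [this, map_neg, map_one]
  rw [e]
  push_cast
  ring

theorem cH_succ (k : ℕ) (hk : 1 ≤ k) : cH (k + 1) = red (Nat.add (cH k) (cC k)) := by
  have : Nat.beq k 0 = false := by
    rw [← Bool.not_eq_true, Nat.beq_eq]
    omega
  show cond (Nat.beq k 0) 0 (red (Nat.add (cH k) (cC k))) = _
  rw [this, cond_false]

theorem cE_succ (k : ℕ) (hk : 1 ≤ k) :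
    cE (k + 1) = red (Nat.add (cE k) (Nat.mul (cC k) (cH k))) := by
  have : Nat.beq k 0 = false := by
    rw [← Bool.not_eq_true, Nat.beq_eq]
    omega
  show cond (Nat.beq k 0) 0 (red (Nat.add (cE k) (Nat.mul (cC k) (cH k)))) = _
  rw [this, cond_false]

theorem cH_zero : cH 0 = 0 := by decide +kernel

theorem cH_one : cH 1 = 0 := by decide +kernel

theorem cE_zero : cE 0 = 0 := by decide +kernel

theorem cE_one : cE 1 = 0 := by decide +kernel

theorem red_cH (k : ℕ) : Red (cH k) (H2A FF127 k) := by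
  induction k with
  | zero =>
    rw [cH_zero]
    refine red_zero'.cast ?_
    simp [H2A]
  | succ k ih =>
    rcases Nat.eq_zero_or_pos k with rfl | hk
    · rw [zero_add, cH_one]
      refine red_zero'.cast ?_
      simp [H2A]
    · rw [cH_succ k hk]
      refine (red_of_rep (ih.rep.add (red_cC k).rep) (by norm_num)).cast ?_
      unfold H2A
      rw [Finset.sum_Ico_succ_top hk]

theorem red_cE (k : ℕ) : Red (cE k) (E4A FF127 k) := by
  induction k with
  | zero =>
    rw [cE_zero]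
    refine red_zero'.cast ?_
    simp [E4A]
  | succ k ih =>
    rcases Nat.eq_zero_or_pos k with rfl | hk
    · rw [zero_add, cE_one]
      refine red_zero'.cast ?_
      simp [E4A]
    · rw [cE_succ k hk]
      refine (red_of_rep (ih.rep.add ((red_cC k).mul (red_cH k))) (by norm_num)).cast ?_
      unfold E4A
      rw [Finset.sum_Ico_succ_top hk]

/-- `α_i(k)`. -/
def alA : ℕ → ℕ → FF127⟦X⟧
  | 0, _ => 1
  | 1, k => C2A FF127 k
  | (i + 2), k => LiA FF127 (i + 1) k

/-- `β_i(m)`. -/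
def beA : ℕ → ℕ → FF127⟦X⟧
  | 0, m => 108 * LiA FF127 5 m + 40 * LiA FF127 3 m + 2 * LiA FF127 1 m
  | 1, m => 150 * LiA FF127 4 m
  | 2, m => 480 * LiA FF127 3 m
  | 3, m => 360 * LiA FF127 2 m
  | 4, m => -(240 * LiA FF127 1 m)
  | _, m => -(60 * C2A FF127 m)

/-- `β'_i(m)`. -/
def be1A : ℕ → ℕ → FF127⟦X⟧
  | 0, m => 108 * LiA FF127 6 m + 40 * LiA FF127 4 m + 2 * LiA FF127 2 m
  | 1, m => 150 * LiA FF127 5 m
  | 2, m => 480 * LiA FF127 4 m
  | 3, m => 360 * LiA FF127 3 m
  | 4, m => -(240 * LiA FF127 2 m)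
  | _, m => -(120 * LiA FF127 1 m)

theorem R0A_sum (k m : ℕ) : R0A FF127 k m = ∑ i ∈ Finset.range 6, alA i k * beA i m := by
  simp only [Finset.sum_range_succ, Finset.sum_range_zero, alA, beA, R0A]
  ring

theorem R1A_sum (k m : ℕ) : R1A FF127 k m = ∑ i ∈ Finset.range 6, alA i k * be1A i m := by
  simp only [Finset.sum_range_succ, Finset.sum_range_zero, alA, be1A, R1A]
  ring

theorem red_al (i k : ℕ) : Red (al i k) (alA i k) := by
  rcases i with _ | _ | i
  · exact red_one
  · exact red_cC k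
  · exact red_cLi (i + 1) k (by omega)

theorem red_be (i m : ℕ) : Red (be i m) (beA i m) := by
  rcases i with _ | _ | _ | _ | _ | i
  · exact red_of_rep ((((red_cLi 5 m (by norm_num)).rep.num 108 108 rfl).add
      ((red_cLi 3 m (by norm_num)).rep.num 40 40 rfl)).add
      ((red_cLi 1 m (by norm_num)).rep.num 2 2 rfl)) (by norm_num)
  · exact red_of_rep ((red_cLi 4 m (by norm_num)).rep.num 23 150 (by decide)) (by norm_num)
  · exact red_of_rep ((red_cLi 3 m (by norm_num)).rep.num 99 480 (by decide)) (by norm_num)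
  · exact red_of_rep ((red_cLi 2 m (by norm_num)).rep.num 106 360 (by decide)) (by norm_num)
  · exact red_of_rep ((red_cLi 1 m (by norm_num)).rep.numneg 14 240 (by decide)) (by norm_num)
  · exact red_of_rep ((red_cC m).rep.numneg 67 60 (by decide)) (by norm_num)

theorem red_be1 (i m : ℕ) : Red (be1 i m) (be1A i m) := by
  rcases i with _ | _ | _ | _ | _ | i
  · exact red_of_rep ((((red_cLi 6 m (by norm_num)).rep.num 108 108 rfl).add
      ((red_cLi 4 m (by norm_num)).rep.num 40 40 rfl)).add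
      ((red_cLi 2 m (by norm_num)).rep.num 2 2 rfl)) (by norm_num)
  · exact red_of_rep ((red_cLi 5 m (by norm_num)).rep.num 23 150 (by decide)) (by norm_num)
  · exact red_of_rep ((red_cLi 4 m (by norm_num)).rep.num 99 480 (by decide)) (by norm_num)
  · exact red_of_rep ((red_cLi 3 m (by norm_num)).rep.num 106 360 (by decide)) (by norm_num)
  · exact red_of_rep ((red_cLi 2 m (by norm_num)).rep.numneg 14 240 (by decide)) (by norm_num)
  · exact red_of_rep ((red_cLi 1 m (by norm_num)).rep.numneg 7 120 (by decide)) (by norm_num)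

theorem red_cR0 (k m : ℕ) : Red (cR0 k m) (R0A FF127 k m) := by
  rw [R0A_sum]
  exact red_of_rep (RepK.sm 6 fun i _ => (red_al i k).mul (red_be i m)) (by norm_num)

theorem red_cR1 (k m : ℕ) : Red (cR1 k m) (R1A FF127 k m) := by
  rw [R1A_sum]
  exact red_of_rep (RepK.sm 6 fun i _ => (red_al i k).mul (red_be1 i m)) (by norm_num)

theorem red_cR2 (k : ℕ) : Red (cR2 k) (R2A FF127 k) := by
  have h : ∀ j, 1 ≤ j → Red (cLi j k) (LiA FF127 j k) := fun j hj => red_cLi j k hj
  refine (red_of_rep (((((h 7 (by norm_num)).rep.num 48 48 rfl).add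
    ((h 5 (by norm_num)).rep.num 10 10 rfl)).add ((h 3 (by norm_num)).rep.num 2 2 rfl)).add
    ((((red_cC k).mu (h 6 (by norm_num))).rep.num 60 60 rfl |>.add
      (((h 1 (by norm_num)).mu (h 5 (by norm_num))).rep.num 120 120 rfl)).add
      ((((h 3 (by norm_num)).mu (h 3 (by norm_num))).rep.numneg 14 240 (by decide)).add
        (((h 4 (by norm_num)).mu (h 2 (by norm_num))).rep.numneg 7 120 (by decide)))))
    (by norm_num)).cast ?_
  unfold R2A
  push_cast
  ring

theorem red_cFA (k : ℕ) (hk : 1 ≤ k) (hk' : k ≤ 72) :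
    RepK 126 (cFA k) (FAA FF127 k) := by
  have h1 : RepK (126 * 126) (Nat.mul (Nat.mod (Nat.mul (Nat.sub k 1) (Nat.add k 4)) 127) (cR0 k k))
      (((((k : FF127⟦X⟧) - 1) * ((k : FF127⟦X⟧) + 4))) * R0A FF127 k k) := by
    have e : (((k : FF127⟦X⟧) - 1) * ((k : FF127⟦X⟧) + 4)) = (((k - 1) * (k + 4) : ℕ) : FF127⟦X⟧) := by
      push_cast [hk]
      ring
    rw [e]
    refine ((red_cR0 k k).rep.num (Nat.mod (Nat.mul (Nat.sub k 1) (Nat.add k 4)) 127)
      ((k - 1) * (k + 4)) ?_).mono ?_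
    · show ((((k - 1) * (k + 4)) % 127 : ℕ) : FF127) = _
      rw [ZMod.natCast_mod]
    · have : Nat.mod (Nat.mul (Nat.sub k 1) (Nat.add k 4)) 127 < 127 :=
        Nat.mod_lt _ (by norm_num)
      exact Nat.mul_le_mul_right 126 (by omega)
  refine RepK.cast (RepK.shift k (red_of_rep (K := 72 * 126) (RepK.mono
    (((red_cU k).mu ((red_cU k).mu (red_of_rep ((h1.add
      (((red_cE k).mu (red_cR0 k k)).rep.num 6 6 rfl)).add
      ((((red_cH k).mu (red_cR1 k k)).rep.numneg 121 6 (by decide)).add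
        ((red_cR2 k).rep.num 3 3 rfl))) (by norm_num)))).rep.num k k rfl)
    (Nat.mul_le_mul_right 126 hk')) (by norm_num)).rep) ?_
  unfold FAA
  push_cast
  ring

/-- `k u_k α_i(k)`. -/
def AA (i k : ℕ) : FF127⟦X⟧ := (k : FF127⟦X⟧) * (uu FF127 k * alA i k)

theorem red_cA (i k : ℕ) (hk : k ≤ 72) : Red (cA i k) (AA i k) := by
  refine red_of_rep (K := 72 * 126) (RepK.mono
    (((red_cU k).mu (red_al i k)).rep.num k k rfl) (Nat.mul_le_mul_right 126 hk)) (by norm_num)

theorem red_cUH (n : ℕ) : Red (cUH n) (uu FF127 n * H2A FF127 n) := (red_cU n).mu (red_cH n)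

theorem asc_eq : asc = List.range' 1 72 := by decide

theorem desc_succ (f : ℕ → ℕ) (m : ℕ) : desc f (m + 1) = f m :: desc f m := rfl

theorem dot_cons (a b : ℕ) (l l' : List ℕ) :
    dot (a :: l) (b :: l') = Nat.add (Nat.mul a b) (dot l l') := rfl

theorem dot_nil (l : List ℕ) : dot l [] = 0 := by
  cases l <;> rfl

theorem rep_dot {f g : ℕ → ℕ} {F G : ℕ → FF127⟦X⟧} (m : ℕ) : ∀ (s len : ℕ), m ≤ len →
    (∀ t, Red (f t) (F t)) → (∀ t, t < m → Red (g t) (G t)) →
    RepK (m * 1158948) (dot ((List.range' s len).map f) (desc g m))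
      (∑ t ∈ Finset.range m, F (s + t) * G (m - 1 - t)) := by
  induction m with
  | zero =>
    intro s len _ _ _
    show RepK (0 * _) (dot _ []) _
    rw [dot_nil, Finset.sum_range_zero, zero_mul]
    exact RepK.zero
  | succ m ih =>
    intro s len hlen hf hg
    obtain ⟨len, rfl⟩ : ∃ l, len = l + 1 := ⟨len - 1, by omega⟩
    rw [desc_succ, List.range'_succ, List.map_cons, dot_cons, Finset.sum_range_succ']
    have h1 := ih (s + 1) len (by omega) hf (fun t ht => hg t (by omega))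
    have h2 := (hf s).mul (hg m (by omega))
    refine ((h2.add h1).mono (by omega)).cast ?_
    rw [add_comm]
    congr 1
    refine Finset.sum_congr rfl fun t _ => ?_
    rw [show s + 1 + t = s + (t + 1) by ring, show m + 1 - 1 - (t + 1) = m - 1 - t by omega]

/-- `P_i(m)`. -/
def PA (i m : ℕ) : FF127⟦X⟧ := ∑ t ∈ Finset.range m, uu FF127 (1 + t) * AA i (m - 1 - t)

/-- `Q_i(m)`. -/
def QA (i m : ℕ) : FF127⟦X⟧ :=
  ∑ t ∈ Finset.range m, (uu FF127 (1 + t) * H2A FF127 (1 + t)) * AA i (m - 1 - t)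

theorem red_cP (i m : ℕ) (hm : m ≤ 72) : Red (cP i m) (PA i m) := by
  unfold cP
  rw [asc_eq]
  refine red_of_rep (rep_dot (f := cU) (F := fun t => uu FF127 t) (g := cA i) (G := AA i)
    m 1 72 hm (fun t => red_cU t) (fun t ht => red_cA i t (by omega))) ?_
  calc m * 1158948 ≤ 72 * 1158948 := Nat.mul_le_mul_right _ hm
    _ < 4294967296 := by norm_num

theorem red_cQ (i m : ℕ) (hm : m ≤ 72) : Red (cQ i m) (QA i m) := by
  unfold cQ
  rw [asc_eq]
  refine red_of_rep (rep_dot (f := cUH) (F := fun t => uu FF127 t * H2A FF127 t) (g := cA i) (G := AA i)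
    m 1 72 hm (fun t => red_cUH t) (fun t ht => red_cA i t (by omega))) ?_
  calc m * 1158948 ≤ 72 * 1158948 := Nat.mul_le_mul_right _ hm
    _ < 4294967296 := by norm_num

/-- `∑_{k+n=m} 90 FB(k,n)`. -/
def FBm (m : ℕ) : FF127⟦X⟧ := X ^ m * (uu FF127 m * ∑ i ∈ Finset.range 6,
  (12 * (beA i m * (QA i m + H2A FF127 m * PA i m)) + -(12 * (be1A i m * PA i m))))

theorem rep_cFB (m : ℕ) (hm : m ≤ 72) : RepK 126 (cFB m) (FBm m) := by
  unfold cFB FBm
  refine RepK.shift m ((red_cU m).mu (red_of_rep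
    (RepK.sm (K := 12 * 126 + 115 * 126) 6 fun i _ => ?_) ?_)).rep
  · exact (((red_be i m).mu (red_of_rep ((red_cQ i m hm).rep.add
      ((red_cH m).mu (red_cP i m hm)).rep) (by norm_num))).rep.num 12 12 rfl).add
      (((red_be1 i m).mu (red_cP i m hm)).rep.numneg 115 12 (by decide))
  · norm_num

theorem FBm_eq (m : ℕ) (hm : 1 ≤ m) : FBm m = ∑ k ∈ Finset.Ico 1 m, FBA FF127 k (m - k) := by
  have hP : ∀ i, PA i m = ∑ k ∈ Finset.Ico 1 m, uu FF127 (m - k) * AA i k := by
    intro i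
    unfold PA
    rw [← Finset.sum_range_reflect]
    obtain ⟨n, rfl⟩ : ∃ n, m = n + 1 := ⟨m - 1, by omega⟩
    rw [Finset.sum_range_succ', Finset.sum_Ico_eq_sum_range]
    have h0 : AA i (n + 1 - 1 - (n + 1 - 1 - 0)) = 0 := by
      simp [AA]
    rw [h0, mul_zero, add_zero, show n + 1 - 1 = n by omega]
    refine Finset.sum_congr rfl fun t ht => ?_
    have := Finset.mem_range.1 ht
    rw [show 1 + (n - (t + 1)) = n + 1 - (1 + t) by omega,
      show n - (n - (t + 1)) = 1 + t by omega]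
  have hQ : ∀ i, QA i m = ∑ k ∈ Finset.Ico 1 m, (uu FF127 (m - k) * H2A FF127 (m - k)) * AA i k := by
    intro i
    unfold QA
    rw [← Finset.sum_range_reflect]
    obtain ⟨n, rfl⟩ : ∃ n, m = n + 1 := ⟨m - 1, by omega⟩
    rw [Finset.sum_range_succ', Finset.sum_Ico_eq_sum_range]
    have h0 : AA i (n + 1 - 1 - (n + 1 - 1 - 0)) = 0 := by
      simp [AA]
    rw [h0, mul_zero, add_zero, show n + 1 - 1 = n by omega]
    refine Finset.sum_congr rfl fun t ht => ?_
    have := Finset.mem_range.1 ht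
    rw [show 1 + (n - (t + 1)) = n + 1 - (1 + t) by omega,
      show n - (n - (t + 1)) = 1 + t by omega]
  unfold FBm
  have e : ∀ i, (12 * (beA i m * (QA i m + H2A FF127 m * PA i m)) + -(12 * (be1A i m * PA i m))) =
      ∑ k ∈ Finset.Ico 1 m, (uu FF127 (m - k) * AA i k) *
        (12 * ((H2A FF127 (m - k) + H2A FF127 m) * beA i m) - 12 * be1A i m) := by
    intro i
    rw [hP, hQ]
    simp only [Finset.mul_sum, ← Finset.sum_add_distrib, ← Finset.sum_neg_distrib]
    refine Finset.sum_congr rfl fun k _ => ?_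
    ring
  simp only [e]
  rw [Finset.sum_comm, Finset.mul_sum, Finset.mul_sum]
  refine Finset.sum_congr rfl fun k hk => ?_
  have hk' := Finset.mem_Ico.1 hk
  unfold FBA
  rw [show m - k + k = m by omega, show k + (m - k) = m by omega, R0A_sum, R1A_sum]
  simp only [AA, Finset.mul_sum, ← Finset.sum_sub_distrib]
  refine Finset.sum_congr rfl fun i _ => ?_
  ring

theorem dvd_FAA (k : ℕ) : (X : FF127⟦X⟧) ^ k ∣ FAA FF127 k := by
  unfold FAA
  exact Dvd.intro _ (by ring : X ^ k * ((k : FF127⟦X⟧) * (uu FF127 k ^ 2 *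
    (((k : FF127⟦X⟧) - 1) * ((k : FF127⟦X⟧) + 4) * R0A FF127 k k + 6 * (E4A FF127 k * R0A FF127 k k) -
      6 * (H2A FF127 k * R1A FF127 k k) + 3 * R2A FF127 k))) = _)

theorem dvd_FBA (k n : ℕ) : (X : FF127⟦X⟧) ^ (k + n) ∣ FBA FF127 k n := by
  unfold FBA
  exact Dvd.intro _ (by ring : X ^ (k + n) * ((k : FF127⟦X⟧) * (uu FF127 k * uu FF127 n * uu FF127 (n + k) *
    (12 * ((H2A FF127 n + H2A FF127 (n + k)) * R0A FF127 k (n + k)) - 12 * R1A FF127 k (n + k)))) = _)

theorem coeff_F0A (N : ℕ) (hN : N < 73) : PowerSeries.coeff N (F0A FF127) =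
    PowerSeries.coeff N (∑ t ∈ Finset.range 72, (FAA FF127 (t + 1) + FBm (t + 1))) := by
  unfold F0A
  rw [PowerSeries.coeff_mk, map_add, Finset.sum_add_distrib, map_add]
  refine congrArg₂ (· + ·) ?_ ?_
  · rw [map_sum, map_sum]
    have h1 : ∑ k ∈ Finset.Icc 1 N, PowerSeries.coeff N (FAA FF127 k) =
        ∑ k ∈ Finset.Ico 1 73, PowerSeries.coeff N (FAA FF127 k) := by
      apply Finset.sum_subset
      · intro k hk
        rw [Finset.mem_Icc] at hk
        rw [Finset.mem_Ico]
        omega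
      · intro k hk hk'
        rw [Finset.mem_Ico] at hk
        rw [Finset.mem_Icc] at hk'
        exact PowerSeries.X_pow_dvd_iff.1 (dvd_FAA k) N (by omega)
    rw [h1, Finset.sum_Ico_eq_sum_range]
    refine Finset.sum_congr rfl fun t _ => ?_
    rw [add_comm]
  · have h2 : ∀ t ∈ Finset.range 72, FBm (t + 1) =
        ∑ k ∈ Finset.Ico 1 (t + 1), FBA FF127 k (t + 1 - k) := fun t _ => FBm_eq (t + 1) (by omega)
    rw [Finset.sum_congr rfl h2, map_sum, map_sum]
    simp only [map_sum]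
    have hz : ∀ k n, N < k + n → PowerSeries.coeff N (FBA FF127 k n) = 0 := fun k n h =>
      PowerSeries.X_pow_dvd_iff.1 (dvd_FBA k n) N h
    have hL : ∑ k ∈ Finset.Icc 1 N, ∑ n ∈ Finset.Icc 1 N, PowerSeries.coeff N (FBA FF127 k n) =
        ∑ p ∈ (Finset.Icc 1 72 ×ˢ Finset.Icc 1 72).filter (fun p : ℕ × ℕ => p.1 + p.2 ≤ 72),
          PowerSeries.coeff N (FBA FF127 p.1 p.2) := by
      rw [← Finset.sum_product']
      have h3 : ∑ p ∈ Finset.Icc 1 N ×ˢ Finset.Icc 1 N, PowerSeries.coeff N (FBA FF127 p.1 p.2) =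
          ∑ p ∈ (Finset.Icc 1 N ×ˢ Finset.Icc 1 N).filter (fun p : ℕ × ℕ => p.1 + p.2 ≤ N),
            PowerSeries.coeff N (FBA FF127 p.1 p.2) := by
        symm
        apply Finset.sum_subset (Finset.filter_subset _ _)
        intro p hp hp'
        apply hz
        by_contra hcon
        exact hp' (Finset.mem_filter.2 ⟨hp, by omega⟩)
      rw [h3]
      apply Finset.sum_subset
      · intro p hp
        simp only [Finset.mem_filter, Finset.mem_product, Finset.mem_Icc] at hp ⊢
        omega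
      · intro p hp hp'
        simp only [Finset.mem_filter, Finset.mem_product, Finset.mem_Icc] at hp hp'
        apply hz
        omega
    rw [hL, Finset.sum_sigma']
    symm
    apply Finset.sum_bij' (fun (x : (_ : ℕ) × ℕ) _ => ((x.2, x.1 + 1 - x.2) : ℕ × ℕ))
      (fun (p : ℕ × ℕ) _ => (⟨p.1 + p.2 - 1, p.1⟩ : (_ : ℕ) × ℕ))
    · rintro ⟨t, k⟩ h
      simp only [Finset.mem_sigma, Finset.mem_range, Finset.mem_Ico] at h
      simp only [Finset.mem_filter, Finset.mem_product, Finset.mem_Icc]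
      omega
    · rintro ⟨k, n⟩ h
      simp only [Finset.mem_filter, Finset.mem_product, Finset.mem_Icc] at h
      simp only [Finset.mem_sigma, Finset.mem_range, Finset.mem_Ico]
      omega
    · rintro ⟨t, k⟩ h
      simp only [Finset.mem_sigma, Finset.mem_range, Finset.mem_Ico] at h
      simp only [Sigma.mk.injEq, heq_eq_eq, and_true]
      omega
    · rintro ⟨k, n⟩ h
      simp only [Finset.mem_filter, Finset.mem_product, Finset.mem_Icc] at h
      simp only [Prod.mk.injEq, true_and]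
      omega
    · rintro ⟨t, k⟩ h
      rfl

theorem red_cF : Red cF (F0A FF127) := by
  have h : Red cF (∑ t ∈ Finset.range 72, (FAA FF127 (t + 1) + FBm (t + 1))) :=
    red_of_rep (RepK.sm (K := 252) 72 fun i hi =>
      (red_cFA (i + 1) (by omega) (by omega)).add (rep_cFB (i + 1) (by omega))) (by norm_num)
  obtain ⟨p, h1, h2, h3, h4⟩ := h
  exact ⟨p, h1, h2, h3, fun n hn => (h4 n hn).trans (coeff_F0A n hn).symm⟩

end

end Pool.Agent.H946.T4
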