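import Pool.Agent.H946.T4.ChkDef
set_option autoImplicit false

/-!
# kernel evaluation of `cF` (part)
-/

namespace Pool.Agent.H946.T4

/-- partial sum. -/
def tS2 : ℕ := 252893024330393311040251776259711989846219793114734172767831922484530743351247017957334845273848988859190250909727854455672452406347505895606853945546170510845974608295831062614187942623456243906430094413933989359690308927427551274636196561060851537541960259448213547080823351082126627733773645043698359186030150426665664874028665777876139800799479084551489022028795992234458683423590130627964219602635034870818891078638829705387066543924239026920130651054258129131137697077026547073963879755566985198290536103632623220321064644140259775425711356536068691640121766841413701744686178294082093379735145622644075326307762579804220353197846167670661794586743038394499285840241856562045031440538120458568105675375410425685967982691502456704805731035909707437458326799112004903696011468090680293706569372418056932232186748992925389711613610526361133067535587317323110859396607575158477839734770775415227514858032504156468151337662021884134686830109512004684979368933143388119788911178257875150221555927830186598361384842862077539424959681709760413860906782553660253450173033604007353127364528185896284979200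

set_option maxRecDepth 100000 in
theorem part2 : smr 30 12 cT = tS2 := Nat.eq_of_beq_eq_true (by decide +kernel)

/-- partial sum. -/
def tS3 : ℕ := 61383661585315221997895716354605512804223787220562922099214389451123361650867650514712705719262462656584255599852336030439825822913010604588521711702592357106371341255627832928307949881283882725931371002495829216919467082609980022766450235421466478629613790379144938573766681162172679920709741589129456998509792749859367388118108742059502680761434938478197784735553708290183550418750895461146847336916765399904209365477333727494026112419612524745406984754379833943406823697219943134425603146595233446580271594035550333653588815808009088473693642751537865178366281116819416211457911192819904187762950796999503651774221894080368570887956122813852611093498944389395634456584547983138213451891625152905760296530447662760955791854528254359299260884775324928716993469061548836978671201684218413213219243882996500427147814262302687254950190384042101566646178174879075772920795597800587274807197099266029600057390664370317215426842908597024583613046116156197200192156403764918695040298815054347622483358232235145071225238993048138368309151777278607578379047726277938808003131633089552171527231279431934660235062856218146923645780522393285406774901383586885502289832600336715483534750532292947820547145728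

set_option maxRecDepth 100000 in
theorem part3 : smr 42 10 cT = tS3 := Nat.eq_of_beq_eq_true (by decide +kernel)

end Pool.Agent.H946.T4
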