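import Pool.Agent.H946.T4.ChkDef
set_option autoImplicit false

/-!
# kernel evaluation of `cF` (part)
-/

namespace Pool.Agent.H946.T4

/-- partial sum. -/
def tS4 : ℕ := 642462055835582412731143292065476084497422296886982051470219811722286377459487891872907162926116066867740878620404710578173251526844619845818106062091886915405368783179453411336236798256955881988918676756912879319565306207190306526166043068082514206838714195486133685324214114822348598544860170994374931585980398983170490623743347561584585334967504346245672372546933249166448066894477915263299557597127756665780951759603752852030876215417776920032814188090153130579216894616054762095319464827852552194474735146301984871048466291401816002687304291802762396271644231012272296174629643120323568310022320386182027290711354354950626636551878644187639043339824803055219639407006101671948454881308859665618681932860385382002985961869440431947571660470982311911798291150890610836891228996522361267829659081627882179885272757227942241328300230741127537329173448857118923055315658303382462725847085786407350125976522234020910572619913390586554814285426633511679379235861418457922175698652671009288812522546402719447207972510729870496286574908069167312673286890506659334586701103174572519960980139840857056124910972414601444219754767346610272637215704154183641949783044871634966351945656253538929265226572566606004658747154567072182239300953146482472970144795491318827523709116731095616170079341252706304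

set_option maxRecDepth 100000 in
theorem part4 : smr 52 10 cT = tS4 := Nat.eq_of_beq_eq_true (by decide +kernel)

end Pool.Agent.H946.T4
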