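import Pool.Agent.H946.T4.ChkDef
set_option autoImplicit false

/-!
# kernel evaluation of `cF` (part)
-/

namespace Pool.Agent.H946.T4

/-- partial sum. -/
def tS5 : ℕ := 2240474485162919016728574675910235873602478736956912018864368834874779915813895372508619399232697437150347437674479171000130231326520133698835381206085896311573313571728527957549615539404912765775665552417384789208921939040252126630688542801387461768143585830065733769576140381061864166275569913302127370877976517010115762788940232747187915086886363517217357190982578225539988753689828567154665647463440105173498758790976486945819298954127783409943726145345674695016777845468981917181070887455776892762416934440121548496123741373895400087723231595886671575172073134507845237790345204180177068254439339111306987347413731158531249955896527412876936857229824473324300675379020652217130439593145338171233360572264260074436966877464762029758693828958797944991978995899428255955168852459717588906462445711551210408899627020865013156122975468195540774393453469413230507000748099250937602495002836877863289723775309332932140188265087499434007249645439371670300331050046431644336702535849237687170986305271445115257285713717609671925591098222870224587829832041524557318263070408403940672308124266238277069970787964470120603505385209848579890591578579501396583760345463043606134447618866511614713036859996562474534782689001978545229493646750965415932594026554463563550178238374328174602018960386437193592743508596975228398461666497684576365876835932666124637284011603227199920532136361876853585084416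

set_option maxRecDepth 100000 in
theorem part5 : smr 62 10 cT = tS5 := Nat.eq_of_beq_eq_true (by decide +kernel)

end Pool.Agent.H946.T4
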