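import Pool.Agent.H946.T4.ChkA
import Pool.Agent.H946.T4.ChkB
import Pool.Agent.H946.T4.ChkC
import Pool.Agent.H946.T4.ChkD
set_option autoImplicit false

/-!
# kernel evaluation of `cF`
-/

namespace Pool.Agent.H946.T4

attribute [local irreducible] sm

set_option maxRecDepth 100000 in
theorem red_parts : red (tS0 + tS1 + tS2 + tS3 + tS4 + tS5) = tF := Nat.eq_of_beq_eq_true (by decide +kernel)

theorem sm_parts : sm 72 cT = tS0 + tS1 + tS2 + tS3 + tS4 + tS5 := by
  have h0 : sm 0 cT = 0 := sm_zero cT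
  have e0 := sm_add 0 18 cT
  rw [part0, h0, zero_add, zero_add] at e0
  have e1 := sm_add 18 12 cT
  rw [part1, e0] at e1
  have e2 := sm_add 30 12 cT
  rw [part2] at e2
  have e3 := sm_add 42 10 cT
  rw [part3] at e3
  have e4 := sm_add 52 10 cT
  rw [part4] at e4
  have e5 := sm_add 62 10 cT
  rw [part5] at e5
  have a1 : 18 + 12 = 30 := by norm_num
  have a2 : 30 + 12 = 42 := by norm_num
  have a3 : 42 + 10 = 52 := by norm_num
  have a4 : 52 + 10 = 62 := by norm_num
  have a5 : 62 + 10 = 72 := by norm_num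
  rw [a1] at e1
  rw [a2, e1] at e2
  rw [a3, e2] at e3
  rw [a4, e3] at e4
  rw [a5, e4] at e5
  exact e5

theorem cF_eq_tF : cF = tF := by
  rw [cF_eq, sm_parts, red_parts]

end Pool.Agent.H946.T4
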