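import Pool.Agent.H946.T4.ChkDef
set_option autoImplicit false

/-!
# kernel evaluation of `cF` (part)
-/

namespace Pool.Agent.H946.T4

/-- partial sum. -/
def tS0 : ℕ := 201764151789537953557169489356690579410259527513394424150658981041539969861441627295785409580719019944159313761191897270096039033322285547626932037160947005982921929122656058695051884445560755585164249690580839922999117770374667901882115119163803620667144560051999232247171334539269682952937664638151389795178236670225270386230832749442780155582879859685768876999066134737858365886539851517177460459299189294257142076926745625366208223746726734602077965015183310456172181253503843316495622143196298194636203608870462851310807889050248836323199062224758039519159615982623779119037089483801359399384702406117135874269891703675784068761325808484621070547173064070781282214296088161892499795586613941866788099501286635602050495416036478964261415063121960431755091663280672870258758862113520546369755032821557106028999182793654306762463869953005454991751661404174039509893120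

set_option maxRecDepth 100000 in
theorem part0 : smr 0 18 cT = tS0 := Nat.eq_of_beq_eq_true (by decide +kernel)

/-- partial sum. -/
def tS1 : ℕ := 2880931543986031625454798966234076311882889085989754501559749486621804466278952457459906638425076750069507271636231556531431554817609726310674014793486418245831239588234873298636495577500997282292980599019604953436900493763111089373677070996450782248478080531599123007713887479076233354693961631644439806245739937657376496571348986813108773228637849459775306822870601666275725826660530773492851678756351791911993964017936025414128601979537502417245013280135789857769952371739101564948475293898651681167305598142299434353176118731380100073888861535249636332827532248764113600644560326399347601459575133155713687859735849709171284159363223220488421538608302515717094436395642515698324584970745859700673611908294825883643821065322428819105381774541646798872846007786507305633387363363641515596545348276252055801315606603343753315497109606700018554622557468793996335392024176975531777406067407678666056808843904626015281246899506616989043736510542245165594283719342003168164411395813670912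

set_option maxRecDepth 100000 in
theorem part1 : smr 18 12 cT = tS1 := Nat.eq_of_beq_eq_true (by decide +kernel)

end Pool.Agent.H946.T4
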