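import Pool.Agent.H946.T4.En
set_option autoImplicit false

/-!
# kernel evaluation of `cF`: definitions
-/

namespace Pool.Agent.H946.T4

/-- `∑_{i<n} f (a+i)`. -/
def smr (a n : ℕ) (f : ℕ → ℕ) : ℕ :=
  Nat.rec 0 (fun i acc => Nat.add acc (f (Nat.add a i))) n

theorem smr_succ (a n : ℕ) (f : ℕ → ℕ) : smr a (n + 1) f = Nat.add (smr a n f) (f (a + n)) := rfl

theorem sm_add (a n : ℕ) (f : ℕ → ℕ) : sm (a + n) f = sm a f + smr a n f := by
  induction n with
  | zero => rfl
  | succ n ih =>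
    rw [← add_assoc, sm_succ, ih, smr_succ]
    exact add_assoc _ _ _

/-- the summands of `cF`. -/
def cT (k : ℕ) : ℕ := Nat.add (cFA (Nat.succ k)) (cFB (Nat.succ k))

theorem cF_eq : cF = red (sm 72 cT) := rfl

end Pool.Agent.H946.T4
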