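import Mathlib
set_option autoImplicit false

/-!
# kernel-friendly computations with truncated power series modulo 127

A truncated power series `∑_{n<73} a_n X^n` is encoded by the natural number
`∑ a_n B^n`, `B = 2^32`.
-/

namespace Pool.Agent.H946.T4

/-- reduce the lowest `n` digits modulo 127. -/
def redn (n : ℕ) : ℕ → ℕ :=
  Nat.rec (fun _ => 0) (fun _ ih c =>
    Nat.add (Nat.mod (Nat.mod c 4294967296) 127) (Nat.mul 4294967296 (ih (Nat.div c 4294967296)))) n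

/-- reduce the lowest 73 digits modulo 127. -/
def red (c : ℕ) : ℕ := redn 73 c

/-- `∑_{i<n} f i`. -/
def sm (n : ℕ) (f : ℕ → ℕ) : ℕ :=
  Nat.rec 0 (fun i acc => Nat.add acc (f i)) n

/-- code of the series with coefficients `f n`, `n < 73`. -/
def enc (f : ℕ → ℕ) : ℕ := sm 73 (fun n => Nat.mul (f n) (Nat.pow 4294967296 n))

/-- `u_k`. -/
def cU (k : ℕ) : ℕ := enc (fun n => cond (Nat.beq (Nat.mod n k) 0) 1 0)

/-- `Li_j(k)`. -/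
def cLi (j k : ℕ) : ℕ :=
  enc (fun n => cond (Nat.beq (Nat.mod n k) 0) (Nat.mod (Nat.pow (Nat.div n k) j) 127) 0)

/-- product. -/
def mu (a b : ℕ) : ℕ := red (Nat.mul a b)

/-- `2 c_k = 2 u_k - 1`. -/
def cC (k : ℕ) : ℕ := red (Nat.add (Nat.mul 2 (cU k)) 126)

/-- `2 H_k`. -/
def cH (k : ℕ) : ℕ :=
  Nat.rec 0 (fun j acc => cond (Nat.beq j 0) 0 (red (Nat.add acc (cC j)))) k

/-- `4 E_k`. -/
def cE (k : ℕ) : ℕ :=
  Nat.rec 0 (fun j acc => cond (Nat.beq j 0) 0 (red (Nat.add acc (Nat.mul (cC j) (cH j))))) k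

/-- `α_i(k)`. -/
def al (i k : ℕ) : ℕ :=
  Nat.rec 1 (fun i _ => Nat.rec (cC k) (fun i _ => cLi (Nat.succ i) k) i) i

/-- `β_i(m)`. -/
def be (i m : ℕ) : ℕ :=
  match i with
  | 0 => red (Nat.add (Nat.add (Nat.mul 108 (cLi 5 m)) (Nat.mul 40 (cLi 3 m))) (Nat.mul 2 (cLi 1 m)))
  | 1 => red (Nat.mul 23 (cLi 4 m))
  | 2 => red (Nat.mul 99 (cLi 3 m))
  | 3 => red (Nat.mul 106 (cLi 2 m))
  | 4 => red (Nat.mul 14 (cLi 1 m))
  | _ => red (Nat.mul 67 (cC m))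

/-- `β'_i(m)`. -/
def be1 (i m : ℕ) : ℕ :=
  match i with
  | 0 => red (Nat.add (Nat.add (Nat.mul 108 (cLi 6 m)) (Nat.mul 40 (cLi 4 m))) (Nat.mul 2 (cLi 2 m)))
  | 1 => red (Nat.mul 23 (cLi 5 m))
  | 2 => red (Nat.mul 99 (cLi 4 m))
  | 3 => red (Nat.mul 106 (cLi 3 m))
  | 4 => red (Nat.mul 14 (cLi 2 m))
  | _ => red (Nat.mul 7 (cLi 1 m))

/-- `30 R0(k,m)`. -/
def cR0 (k m : ℕ) : ℕ := red (sm 6 (fun i => Nat.mul (al i k) (be i m)))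

/-- `30 R1(k,m)`. -/
def cR1 (k m : ℕ) : ℕ := red (sm 6 (fun i => Nat.mul (al i k) (be1 i m)))

/-- `30 R2(k)`. -/
def cR2 (k : ℕ) : ℕ :=
  red (Nat.add (Nat.add (Nat.add (Nat.mul 48 (cLi 7 k)) (Nat.mul 10 (cLi 5 k))) (Nat.mul 2 (cLi 3 k)))
    (Nat.add (Nat.add (Nat.mul 60 (mu (cC k) (cLi 6 k))) (Nat.mul 120 (mu (cLi 1 k) (cLi 5 k))))
      (Nat.add (Nat.mul 14 (mu (cLi 3 k) (cLi 3 k))) (Nat.mul 7 (mu (cLi 4 k) (cLi 2 k))))))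

/-- `90 FA(k)`. -/
def cFA (k : ℕ) : ℕ :=
  Nat.mul (Nat.pow 4294967296 k) (red (Nat.mul k (mu (cU k) (mu (cU k)
    (red (Nat.add (Nat.add (Nat.mul (Nat.mod (Nat.mul (Nat.sub k 1) (Nat.add k 4)) 127) (cR0 k k))
        (Nat.mul 6 (mu (cE k) (cR0 k k))))
      (Nat.add (Nat.mul 121 (mu (cH k) (cR1 k k))) (Nat.mul 3 (cR2 k)))))))))

/-- `k u_k α_i(k)`. -/
def cA (i k : ℕ) : ℕ := red (Nat.mul k (mu (cU k) (al i k)))

/-- `u_n 2H_n`. -/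
def cUH (n : ℕ) : ℕ := mu (cU n) (cH n)

/-- `[f (m-1), ..., f 0]`. -/
def desc (f : ℕ → ℕ) (m : ℕ) : List ℕ := Nat.rec [] (fun j acc => f j :: acc) m

/-- `1, …, 72`. -/
def asc : List ℕ := [1,2,3,4,5,6,7,8,9,10,11,12,13,14,15,16,17,18,19,20,21,22,23,24,25,26,27,28,29,
  30,31,32,33,34,35,36,37,38,39,40,41,42,43,44,45,46,47,48,49,50,51,52,53,54,55,56,57,58,59,60,
  61,62,63,64,65,66,67,68,69,70,71,72]

/-- dot product of two lists. -/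
def dot (l l' : List ℕ) : ℕ :=
  List.rec (fun _ => 0) (fun a _ ih l' => List.rec 0 (fun b t _ => Nat.add (Nat.mul a b) (ih t)) l')
    l l'

/-- `∑_{k+n=m} A_i(k) u_n`. -/
def cP (i m : ℕ) : ℕ := red (dot (asc.map (cU)) (desc (cA i) m))

/-- `∑_{k+n=m} A_i(k) u_n 2H_n`. -/
def cQ (i m : ℕ) : ℕ := red (dot (asc.map (cUH)) (desc (cA i) m))

/-- `90 ∑_{k+n=m} FB(k,n)`. -/
def cFB (m : ℕ) : ℕ :=
  Nat.mul (Nat.pow 4294967296 m) (mu (cU m) (red (sm 6 (fun i =>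
    Nat.add (Nat.mul 12 (mu (be i m) (red (Nat.add (cQ i m) (mu (cH m) (cP i m))))))
      (Nat.mul 115 (mu (be1 i m) (cP i m)))))))

/-- `90 F0cl`. -/
def cF : ℕ := red (sm 72 (fun k => Nat.add (cFA (Nat.succ k)) (cFB (Nat.succ k))))

end Pool.Agent.H946.T4
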