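import Pool.Agent.H946.T4.CF
import Pool.Agent.H946.T4.Data
set_option autoImplicit false

/-!
# enumeration of monomials of bounded weight, kernel checks
-/

namespace Pool.Agent.H946.T4

open PowerSeries
open Pool.Agent.H946.Z (uu GG wG F0cl)

/-- all monomials in `G v`, `v ∈ vs`, of weight `≤ w` (with enough fuel). -/
def en {M : Type*} [CommMonoid M] (G : ℕ × ℕ → M) : ℕ → List (ℕ × ℕ) → ℕ → List M
  | 0, _, _ => []
  | _ + 1, [], _ => [1]
  | f + 1, v :: vs, w => en G f vs w ++
      (if wG v ≤ w then (en G f (v :: vs) (w - wG v)).map (fun x => G v * x) else [])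

theorem mem_en {M : Type*} [CommMonoid M] (G : ℕ × ℕ → M) : ∀ (f : ℕ) (vs : List (ℕ × ℕ)) (w : ℕ)
    (m : (ℕ × ℕ) →₀ ℕ), (∀ i ∈ m.support, i ∈ vs) → Finsupp.weight wG m ≤ w →
    vs.length + w < f → (m.prod fun i n => G i ^ n) ∈ en G f vs w := by
  intro f
  induction f with
  | zero => intro vs w m _ _ h; omega
  | succ f ih =>
    intro vs w m hs hw hf
    rcases vs with _ | ⟨v, vs⟩
    · have : m = 0 := by
        rw [← Finsupp.support_eq_empty]
        rw [Finset.eq_empty_iff_forall_notMem]
        intro i hi
        exact absurd (hs i hi) (by simp)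
      subst this
      simp [en]
    · rw [en, List.mem_append]
      by_cases h0 : m v = 0
      · left
        refine ih vs w m ?_ hw (by simp at hf; omega)
        intro i hi
        rcases List.mem_cons.1 (hs i hi) with rfl | h
        · exact absurd h0 (Finsupp.mem_support_iff.1 hi)
        · exact h
      · right
        have hle : Finsupp.single v 1 ≤ m := by
          rw [Finsupp.single_le_iff]
          omega
        obtain ⟨m', rfl⟩ := le_iff_exists_add.1 hle
        have hwt : Finsupp.weight wG (Finsupp.single v 1 + m') = wG v + Finsupp.weight wG m' := by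
          rw [map_add, Finsupp.weight_single]
          simp
        rw [hwt] at hw
        have h3 : 3 ≤ wG v := by unfold wG; omega
        rw [if_pos (by omega), List.mem_map]
        refine ⟨m'.prod fun i n => G i ^ n, ?_, ?_⟩
        · refine ih (v :: vs) (w - wG v) m' ?_ (by omega) (by simp at hf ⊢; omega)
          intro i hi
          refine hs i ?_
          rw [Finsupp.mem_support_iff] at hi ⊢
          rw [Finsupp.add_apply]
          omega
        · rw [Finsupp.prod_add_index' (by simp) (by intros; rw [pow_add]),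
            Finsupp.prod_single_index (by simp), pow_one]

theorem map_en {M M' : Type*} [CommMonoid M] [CommMonoid M'] (φ : M →* M') (G : ℕ × ℕ → M) :
    ∀ (f : ℕ) (vs : List (ℕ × ℕ)) (w : ℕ),
      (en G f vs w).map φ = en (fun v => φ (G v)) f vs w := by
  intro f
  induction f with
  | zero => intro vs w; rfl
  | succ f ih =>
    intro vs w
    rcases vs with _ | ⟨v, vs⟩
    · simp [en]
    · rw [en, en, List.map_append, ih]
      congr 1
      split_ifs
      · rw [← ih, List.map_map, List.map_map]
        refine List.map_congr_left fun x _ => ?_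
        simp
      · rfl

/-! ## codes -/

/-- `∑_{d ∣ n} d^k`. -/
def csig (k n : ℕ) : ℕ :=
  sm n (fun d => cond (Nat.beq (Nat.mod n (Nat.succ d)) 0) (Nat.pow (Nat.succ d) k) 0)

/-- code of `G_{a,l}`. -/
def cG (v : ℕ × ℕ) : ℕ :=
  enc (fun n => Nat.mod (Nat.mul (Nat.pow n v.2) (csig (Nat.add (Nat.mul 2 v.1) 2) n)) 127)

/-- weight. -/
def cw (v : ℕ × ℕ) : ℕ := Nat.add (Nat.add (Nat.mul 2 v.1) 3) (Nat.mul 2 v.2)

/-- codes of the monomials. -/
def ec : ℕ → List (ℕ × ℕ) → ℕ → List ℕ
  | 0, _, _ => []
  | _ + 1, [], _ => [1]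
  | f + 1, v :: vs, w => ec f vs w ++
      cond (Nat.ble (cw v) w) ((ec f (v :: vs) (Nat.sub w (cw v))).map (fun x => mu (cG v) x)) []

theorem csig_eq (k n : ℕ) : csig k n = ∑ d ∈ n.divisors, d ^ k := by
  unfold csig
  rw [sm_eq, Nat.divisors, Finset.sum_filter, Finset.sum_Ico_eq_sum_range]
  rw [show n + 1 - 1 = n by omega]
  refine Finset.sum_congr rfl fun d _ => ?_
  rw [add_comm 1 d]
  by_cases h : (d + 1) ∣ n
  · rw [if_pos h, beq_mod.2 h]; rfl
  · have : Nat.beq (Nat.mod n (Nat.succ d)) 0 = false := by
      rw [← Bool.not_eq_true]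
      exact fun h' => h (beq_mod.1 h')
    rw [if_neg h, this]; rfl

theorem red_cG (v : ℕ × ℕ) : Red (cG v) (GGA (ZMod 127) v) := by
  unfold cG
  apply red_enc
  intro n _
  constructor
  · exact Nat.lt_succ_iff.1 (Nat.mod_lt _ (by norm_num : 0 < 127))
  · unfold GGA
    rw [PowerSeries.coeff_mk]
    show ((n ^ v.2 * csig (2 * v.1 + 2) n % 127 : ℕ) : ZMod 127) = _
    rw [ZMod.natCast_mod, csig_eq]
    push_cast
    rfl

theorem forall2_ec : ∀ (f : ℕ) (vs : List (ℕ × ℕ)) (w : ℕ),
    List.Forall₂ Red (ec f vs w) (en (GGA (ZMod 127)) f vs w) := by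
  intro f
  induction f with
  | zero => intro vs w; exact List.Forall₂.nil
  | succ f ih =>
    intro vs w
    rcases vs with _ | ⟨v, vs⟩
    · rw [ec, en]
      exact List.Forall₂.cons red_one List.Forall₂.nil
    · rw [ec, en]
      refine List.rel_append (ih vs w) ?_
      have hw : cw v = wG v := rfl
      rw [hw]
      by_cases h : wG v ≤ w
      · have : Nat.ble (wG v) w = true := by rw [Nat.ble_eq]; exact h
        rw [this, if_pos h, cond_true]
        rw [List.forall₂_map_left_iff, List.forall₂_map_right_iff]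
        refine (ih (v :: vs) (w - wG v)).imp ?_
        intro a b hab
        exact (red_cG v).mu hab
      · have : Nat.ble (wG v) w = false := by
          rw [← Bool.not_eq_true, Nat.ble_eq]
          exact h
        rw [this, if_neg h, cond_false]
        exact List.Forall₂.nil

/-! ## kernel checks -/

/-- boolean equality of lists of natural numbers. -/
def leq : List ℕ → List ℕ → Bool
  | [], [] => true
  | a :: l, b :: l' => and (Nat.beq a b) (leq l l')
  | _, _ => false

theorem leq_eq : ∀ {l l' : List ℕ}, leq l l' = true → l = l'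
  | [], [], _ => rfl
  | a :: l, b :: l', h => by
    simp only [leq, Bool.and_eq_true, Nat.beq_eq] at h
    rw [h.1, leq_eq h.2]
  | [], _ :: _, h => by simp [leq] at h
  | _ :: _, [], h => by simp [leq] at h

set_option maxRecDepth 100000 in
theorem ec_eq : ec 40 vars 14 = TA := leq_eq (by decide +kernel)

end Pool.Agent.H946.T4
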