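import Pool.Agent.H946.T4.Chk
set_option autoImplicit false

/-!
# the finite check: `90 F0cl` is not in the span of the monomials of weight `≤ 14`
-/

namespace Pool.Agent.H946.T4

open PowerSeries
open Pool.Agent.H946.Z (uu GG wG F0cl S_T4W)


theorem red_def (c : ℕ) : red c = redn 73 c := rfl

attribute [local irreducible] red sm enc TA TC tF cF

/-! ## decoding -/

/-- polynomial with the digits of `c`, reduced modulo 127. -/
noncomputable def dec : ℕ → ℕ → Polynomial ℕ
  | 0, _ => 0
  | n + 1, c => Polynomial.C (c % 4294967296 % 127) + Polynomial.X * dec n (c / 4294967296)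

theorem dec_eval (n : ℕ) : ∀ c, (dec n c).eval 4294967296 = redn n c := by
  induction n with
  | zero => intro c; simp [dec, redn_zero]
  | succ n ih =>
    intro c
    rw [dec, redn_succ, Polynomial.eval_add, Polynomial.eval_mul, Polynomial.eval_X,
      Polynomial.eval_C, ih]

theorem dec_le (n : ℕ) : ∀ c i, (dec n c).coeff i ≤ 126 := by
  induction n with
  | zero => intro c i; simp [dec]
  | succ n ih =>
    intro c i
    rw [dec, Polynomial.coeff_add]
    rcases i with _ | i
    · rw [Polynomial.coeff_C_zero, Polynomial.mul_coeff_zero, Polynomial.coeff_X_zero, zero_mul,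
        add_zero]
      exact Nat.lt_succ_iff.1 (Nat.mod_lt _ (by norm_num : 0 < 127))
    · rw [Polynomial.coeff_C_succ, Polynomial.coeff_X_mul, zero_add]
      exact ih _ _

theorem dec_zero (n : ℕ) : ∀ c i, n ≤ i → (dec n c).coeff i = 0 := by
  induction n with
  | zero => intro c i _; simp [dec]
  | succ n ih =>
    intro c i hi
    obtain ⟨i, rfl⟩ : ∃ j, i = j + 1 := ⟨i - 1, by omega⟩
    rw [dec, Polynomial.coeff_add, Polynomial.coeff_C_succ, Polynomial.coeff_X_mul, zero_add]
    exact ih _ _ (by omega)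

/-- the power series of a code. -/
noncomputable def dps (A : Type) [CommRing A] (c : ℕ) : A⟦X⟧ :=
  PowerSeries.mk fun n => (((dec 73 c).coeff n : ℕ) : A)

theorem red_dps {c : ℕ} (h : red c = c) : Red c (dps FF127 c) := by
  refine ⟨dec 73 c, ?_, dec_le 73 c, dec_zero 73 c, ?_⟩
  · rw [dec_eval, ← red_def]; exact h
  · intro n _
    unfold dps
    rw [PowerSeries.coeff_mk]

theorem map_dps {A A' : Type} [CommRing A] [CommRing A'] (φ : A →+* A') (c : ℕ) :
    PowerSeries.map φ (dps A c) = dps A' c := by
  ext n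
  unfold dps
  rw [PowerSeries.coeff_map, PowerSeries.coeff_mk, PowerSeries.coeff_mk, map_natCast]

/-! ## kernel checks -/

/-- check one row against all columns, starting with index `j`. -/
def chkRow (r i : ℕ) : ℕ → List ℕ → Bool
  | _, [] => true
  | j, c :: l => and (Nat.beq (Nat.mod (Nat.mod (Nat.div (Nat.mul r c)
      (Nat.pow 4294967296 72)) 4294967296) 127) (cond (Nat.beq i j) 1 0)) (chkRow r i (Nat.succ j) l)

/-- check all rows. -/
def chkAll (cols : List ℕ) : ℕ → List ℕ → Bool
  | _, [] => true
  | i, r :: l => and (chkRow r i 0 cols) (chkAll cols (Nat.succ i) l)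

/-- check that the columns are reduced codes. -/
def chkRed : List ℕ → Bool
  | [] => true
  | c :: l => and (Nat.beq (red c) c) (chkRed l)

theorem chkRow_spec {r i : ℕ} : ∀ {l : List ℕ} {j : ℕ}, chkRow r i j l = true →
    ∀ (t : ℕ) (ht : t < l.length),
      r * l[t] / 4294967296 ^ 72 % 4294967296 % 127 = if i = j + t then 1 else 0
  | [], _, _, t, ht => by simp at ht
  | c :: l, j, h, t, ht => by
    rw [chkRow, Bool.and_eq_true] at h
    rcases t with _ | t
    · have h1 := Nat.eq_of_beq_eq_true h.1
      rw [List.getElem_cons_zero, add_zero]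
      refine Eq.trans h1 ?_
      by_cases hij : i = j
      · subst hij
        rw [if_pos rfl, Nat.beq_refl, cond_true]
      · have : Nat.beq i j = false := by
          rw [← Bool.not_eq_true, Nat.beq_eq]
          exact hij
        rw [this, if_neg hij, cond_false]
    · rw [List.getElem_cons_succ, chkRow_spec h.2 t (by simpa using ht)]
      rw [show j.succ + t = j + (t + 1) by omega]

theorem chkAll_spec {cols : List ℕ} : ∀ {l : List ℕ} {i : ℕ}, chkAll cols i l = true →
    ∀ (s : ℕ) (hs : s < l.length) (t : ℕ) (ht : t < cols.length),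
      l[s] * cols[t] / 4294967296 ^ 72 % 4294967296 % 127 = if i + s = t then 1 else 0
  | [], _, _, s, hs, _, _ => by simp at hs
  | r :: l, i, h, s, hs, t, ht => by
    rw [chkAll, Bool.and_eq_true] at h
    rcases s with _ | s
    · rw [List.getElem_cons_zero, add_zero, chkRow_spec h.1 t ht, zero_add]
    · rw [List.getElem_cons_succ, chkAll_spec h.2 s (by simpa using hs) t ht]
      rw [show i.succ + s = i + (s + 1) by omega]

theorem chkRed_spec : ∀ {l : List ℕ}, chkRed l = true →
    ∀ (s : ℕ) (hs : s < l.length), red l[s] = l[s]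
  | [], _, s, hs => by simp at hs
  | r :: l, h, s, hs => by
    rw [chkRed, Bool.and_eq_true] at h
    rcases s with _ | s
    · exact Nat.eq_of_beq_eq_true h.1
    · rw [List.getElem_cons_succ]
      exact chkRed_spec h.2 s (by simpa using hs)

set_option maxRecDepth 100000 in
theorem chk1 : chkAll TC 0 (TA ++ [tF]) = true := by decide +kernel

set_option maxRecDepth 100000 in
theorem chk2 : chkRed TC = true := by decide +kernel

set_option maxRecDepth 100000 in
theorem lenTA : TA.length = 72 := by decide +kernel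

set_option maxRecDepth 100000 in
theorem lenTC : TC.length = 73 := by decide +kernel

/-! ## the rows -/

/-- list of the monomials and of `90 F0cl`. -/
noncomputable def rowL (A : Type) [CommRing A] : List A⟦X⟧ := en (GGA A) 40 vars 14 ++ [F0A A]

theorem rowL_def (A : Type) [CommRing A] : rowL A = en (GGA A) 40 vars 14 ++ [F0A A] := rfl

theorem map_enA {A A' : Type} [CommRing A] [CommRing A'] (φ : A →+* A') (f : ℕ)
    (vs : List (ℕ × ℕ)) (w : ℕ) :
    (en (GGA A) f vs w).map (PowerSeries.map φ) = en (GGA A') f vs w := by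
  have := map_en ((PowerSeries.map φ : A⟦X⟧ →+* A'⟦X⟧) : A⟦X⟧ →* A'⟦X⟧) (GGA A) f vs w
  have e : (fun v => ((PowerSeries.map φ : A⟦X⟧ →+* A'⟦X⟧) : A⟦X⟧ →* A'⟦X⟧) (GGA A v)) =
      GGA A' := by
    funext v
    exact map_GGA φ v
  rw [e] at this
  exact this

theorem map_rowL {A A' : Type} [CommRing A] [CommRing A'] (φ : A →+* A') :
    (rowL A).map (PowerSeries.map φ) = rowL A' := by
  unfold rowL
  rw [List.map_append, List.map_cons, List.map_nil, map_F0A, map_enA]

theorem forall2_rows : List.Forall₂ Red (TA ++ [tF]) (rowL FF127) := by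
  unfold rowL
  refine List.rel_append ?_ ?_
  · rw [← ec_eq]
    exact forall2_ec 40 vars 14
  · rw [← cF_eq_tF]
    exact List.Forall₂.cons red_cF List.Forall₂.nil

attribute [local irreducible] rowL

theorem len_rowF : (rowL FF127).length = 73 := by
  rw [← forall2_rows.length_eq, List.length_append, lenTA, List.length_singleton]

theorem len_row (A : Type) [CommRing A] (φ : ℤ →+* A) : (rowL A).length = (rowL ℤ).length := by
  rw [← map_rowL φ, List.length_map]

theorem len_rowZ : (rowL ℤ).length = 73 := by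
  rw [← len_row FF127 (Int.castRingHom FF127), len_rowF]

theorem len_rowQ : (rowL ℚ).length = 73 := by
  rw [len_row ℚ (Int.castRingHom ℚ), len_rowZ]

/-- the matrix `T'`. -/
noncomputable def TM (A : Type) [CommRing A] (hA : (rowL A).length = 73) :
    Matrix (Fin 73) (Fin 73) A :=
  fun i j => PowerSeries.coeff 72 ((rowL A)[(i : ℕ)]'(by rw [hA]; exact i.2) *
    dps A (TC[(j : ℕ)]'(by rw [lenTC]; exact j.2)))

theorem getElem_map_row {A A' : Type} [CommRing A] [CommRing A'] (φ : A →+* A')
    (n : ℕ) (h : n < (rowL A).length) (h' : n < (rowL A').length) :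
    PowerSeries.map φ ((rowL A)[n]'h) = (rowL A')[n]'h' := by
  have h2 : n < ((rowL A).map (PowerSeries.map φ)).length := by
    rw [List.length_map]; exact h
  exact (List.getElem_map (l := rowL A) (PowerSeries.map φ) (i := n) (h := h2)).symm.trans
    (List.getElem_of_eq (map_rowL φ) h2)

theorem map_TM {A A' : Type} [CommRing A] [CommRing A'] (φ : A →+* A')
    (hA : (rowL A).length = 73) (hA' : (rowL A').length = 73) :
    (TM A hA).map φ = TM A' hA' := by
  ext i j
  unfold TM
  rw [Matrix.map_apply, ← PowerSeries.coeff_map, map_mul, map_dps,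
    getElem_map_row φ _ _ (by rw [hA']; exact i.2)]

theorem TM_F : TM FF127 len_rowF = 1 := by
  ext i j
  have hi : (i : ℕ) < (TA ++ [tF]).length := by
    rw [List.length_append, lenTA]; exact i.2
  have h1 : Red ((TA ++ [tF])[(i : ℕ)]) ((rowL FF127)[(i : ℕ)]'(by rw [len_rowF]; exact i.2)) :=
    forall2_rows.get hi (by rw [len_rowF]; exact i.2)
  have hj : (j : ℕ) < TC.length := by rw [lenTC]; exact j.2
  have h2 := red_dps (chkRed_spec chk2 j hj)
  unfold TM
  rw [← digit_mul h1 h2]
  have h3 := chkAll_spec chk1 i hi j hj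
  rw [zero_add] at h3
  rw [← ZMod.natCast_mod, h3, Matrix.one_apply]
  by_cases hij : i = j
  · subst hij; simp
  · have : (i : ℕ) ≠ j := fun h => hij (Fin.ext h)
    rw [if_neg this, if_neg hij]
    simp

theorem det_TMQ : (TM ℚ len_rowQ).det ≠ 0 := by
  have h1 : (TM ℤ len_rowZ).det ≠ 0 := by
    intro h
    have h2 := congrArg (Int.castRingHom FF127) h
    rw [RingHom.map_det, RingHom.mapMatrix_apply, map_TM _ _ len_rowF, TM_F, Matrix.det_one,
      map_zero] at h2
    exact absurd h2 (by decide)
  have h3 : (TM ℚ len_rowQ).det = Int.castRingHom ℚ ((TM ℤ len_rowZ).det) := by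
    rw [RingHom.map_det, RingHom.mapMatrix_apply, map_TM _ _ len_rowQ]
  rw [h3]
  simpa using h1

theorem indep (d : Fin 73 → ℚ)
    (hd : ∑ i : Fin 73, d i • (rowL ℚ)[(i : ℕ)]'(by rw [len_rowQ]; exact i.2) = 0) : d = 0 := by
  apply Matrix.eq_zero_of_vecMul_eq_zero det_TMQ
  funext j
  have hj : (j : ℕ) < TC.length := by rw [lenTC]; exact j.2
  have h1 := congrArg (fun f => PowerSeries.coeff 72 (f * dps ℚ (TC[(j : ℕ)]))) hd
  simp only [Finset.sum_mul, map_sum, smul_mul_assoc, map_smul, zero_mul, map_zero,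
    smul_eq_mul] at h1
  rw [Matrix.vecMul, dotProduct, Pi.zero_apply]
  exact h1

theorem not_mem (c : Fin 72 → ℚ) :
    ∑ i : Fin 72, c i • (rowL ℚ)[(i : ℕ)]'(by rw [len_rowQ]; omega) ≠ F0A ℚ := by
  intro h
  have hlen : (en (GGA ℚ) 40 vars 14).length = 72 := by
    have := len_rowQ
    unfold rowL at this
    rw [List.length_append] at this
    simpa using this
  have hlast : ∀ (h : 72 < (rowL ℚ).length), (rowL ℚ)[72] = F0A ℚ := by
    intro h
    rw [List.getElem_of_eq (rowL_def ℚ) h, List.getElem_append_right (by omega)]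
    simp
  have h1 := indep (Fin.snoc (α := fun _ => ℚ) c (-1)) (by
    rw [Fin.sum_univ_castSucc]
    simp only [Fin.snoc_castSucc, Fin.snoc_last, Fin.val_castSucc, Fin.val_last]
    rw [h, hlast (by rw [len_rowQ]; norm_num)]
    simp)
  have h2 := congrFun h1 (Fin.last 72)
  rw [Fin.snoc_last, Pi.zero_apply] at h2
  norm_num at h2

theorem vars_mem (i : ℕ × ℕ) (h : wG i ≤ 14) : i ∈ vars := by
  unfold wG at h
  have h1 : i.1 ≤ 5 := by omega
  have h2 : i.2 ≤ 5 := by omega
  have h3 : i.1 + i.2 ≤ 5 := by omega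
  obtain ⟨a, l⟩ := i
  simp only at h1 h2 h3
  interval_cases a <;> interval_cases l <;> first | omega | decide

theorem finite_check : S_T4W 14 := by
  intro P hP hEq
  -- `aeval GG P` lies in the span of the first 72 rows
  have hspan : ∀ m : (ℕ × ℕ) →₀ ℕ, Finsupp.weight wG m ≤ 14 →
      (m.prod fun i n => GG i ^ n) ∈ Submodule.span ℚ
        (Set.range fun i : Fin 72 => (rowL ℚ)[(i : ℕ)]'(by rw [len_rowQ]; omega)) := by
    intro m hm
    apply Submodule.subset_span
    have h1 := mem_en (GGA ℚ) 40 vars 14 m (by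
      intro i hi
      apply vars_mem
      refine le_trans ?_ hm
      exact Finsupp.le_weight_of_ne_zero' (w := wG) (by
        rw [Finsupp.mem_support_iff] at hi
        exact hi)) hm (by
        have : vars.length = 21 := rfl
        omega)
    obtain ⟨n, hn, hn'⟩ := List.mem_iff_getElem.1 h1
    have hlen : (en (GGA ℚ) 40 vars 14).length = 72 := by
      have := len_rowQ
      unfold rowL at this
      rw [List.length_append] at this
      simpa using this
    refine ⟨⟨n, by omega⟩, ?_⟩
    show (rowL ℚ)[n]'_ = _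
    unfold rowL
    rw [List.getElem_append_left hn]
    exact hn'
  have h1 : MvPolynomial.aeval GG P ∈ Submodule.span ℚ
      (Set.range fun i : Fin 72 => (rowL ℚ)[(i : ℕ)]'(by rw [len_rowQ]; omega)) := by
    rw [MvPolynomial.aeval_def, MvPolynomial.eval₂_eq]
    refine Submodule.sum_mem _ fun m hm => ?_
    have e : algebraMap ℚ ℚ⟦X⟧ (MvPolynomial.coeff m P) * ∏ i ∈ m.support, GG i ^ m i =
        MvPolynomial.coeff m P • (m.prod fun i n => GG i ^ n) := by
      rw [Algebra.smul_def]; rfl
    rw [e]
    exact Submodule.smul_mem _ _ (hspan m (hP m hm))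
  rw [hEq] at h1
  have h2 : F0A ℚ ∈ Submodule.span ℚ
      (Set.range fun i : Fin 72 => (rowL ℚ)[(i : ℕ)]'(by rw [len_rowQ]; omega)) := by
    have e : F0A ℚ = (90 : ℚ) • F0cl := by
      rw [F0A_rat, smul_eq, ← ofNat_eq_C 90]
    rw [e]
    exact Submodule.smul_mem _ _ h1
  obtain ⟨c, hc⟩ := (Submodule.mem_span_range_iff_exists_fun ℚ).1 h2
  exact not_mem c hc

end Pool.Agent.H946.T4
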