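import Pool.Agent.H946.T4.Comp
set_option autoImplicit false

/-!
# semantics of the codes
-/

namespace Pool.Agent.H946.T4

open PowerSeries

/-- `c` is the value at `2^32` of a polynomial with natural coefficients `≤ K` which represents
`f` modulo `X^73`. -/
def RepK (K c : ℕ) (f : (ZMod 127)⟦X⟧) : Prop :=
  ∃ h : Polynomial ℕ, h.eval 4294967296 = c ∧ (∀ n, h.coeff n ≤ K) ∧
    ∀ n, n < 73 → ((h.coeff n : ℕ) : ZMod 127) = PowerSeries.coeff n f

/-- reduced codes. -/
def Red (c : ℕ) (f : (ZMod 127)⟦X⟧) : Prop :=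
  ∃ h : Polynomial ℕ, h.eval 4294967296 = c ∧ (∀ n, h.coeff n ≤ 126) ∧
    (∀ n, 73 ≤ n → h.coeff n = 0) ∧
    ∀ n, n < 73 → ((h.coeff n : ℕ) : ZMod 127) = PowerSeries.coeff n f

theorem Red.rep {c : ℕ} {f : (ZMod 127)⟦X⟧} (h : Red c f) : RepK 126 c f := by
  obtain ⟨h, h1, h2, h3, h4⟩ := h
  exact ⟨h, h1, h2, h4⟩

theorem RepK.mono {K K' c : ℕ} {f : (ZMod 127)⟦X⟧} (h : RepK K c f) (hK : K ≤ K') :
    RepK K' c f := by
  obtain ⟨h, h1, h2, h4⟩ := h
  exact ⟨h, h1, fun n => (h2 n).trans hK, h4⟩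

theorem RepK.add {K K' c d : ℕ} {f g : (ZMod 127)⟦X⟧} (h : RepK K c f) (h' : RepK K' d g) :
    RepK (K + K') (Nat.add c d) (f + g) := by
  obtain ⟨a, a1, a2, a4⟩ := h
  obtain ⟨b, b1, b2, b4⟩ := h'
  refine ⟨a + b, ?_, ?_, ?_⟩
  · rw [Polynomial.eval_add, a1, b1]; rfl
  · intro n
    rw [Polynomial.coeff_add]
    exact add_le_add (a2 n) (b2 n)
  · intro n hn
    rw [Polynomial.coeff_add, Nat.cast_add, a4 n hn, b4 n hn, map_add]

theorem RepK.zero : RepK 0 0 0 := ⟨0, by simp, by simp, by simp⟩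

theorem RepK.smul {K c : ℕ} {f : (ZMod 127)⟦X⟧} (a : ℕ) (h : RepK K c f) :
    RepK (a * K) (Nat.mul a c) ((a : (ZMod 127)⟦X⟧) * f) := by
  obtain ⟨p, a1, a2, a4⟩ := h
  refine ⟨Polynomial.C a * p, ?_, ?_, ?_⟩
  · rw [Polynomial.eval_mul, Polynomial.eval_C, a1]; rfl
  · intro n
    rw [Polynomial.coeff_C_mul]
    exact Nat.mul_le_mul_left a (a2 n)
  · intro n hn
    have e : (a : (ZMod 127)⟦X⟧) = PowerSeries.C (a : ZMod 127) := by simp
    rw [Polynomial.coeff_C_mul, Nat.cast_mul, a4 n hn, e, PowerSeries.coeff_C_mul]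

/-- scalar given modulo 127. -/
theorem RepK.smul' {K c : ℕ} {f : (ZMod 127)⟦X⟧} (a : ℕ) (z : ZMod 127) (hz : (a : ZMod 127) = z)
    (h : RepK K c f) : RepK (a * K) (Nat.mul a c) (PowerSeries.C z * f) := by
  subst hz
  have := h.smul a
  simpa using this

theorem Red.mul {c d : ℕ} {f g : (ZMod 127)⟦X⟧} (h : Red c f) (h' : Red d g) :
    RepK 1158948 (Nat.mul c d) (f * g) := by
  obtain ⟨a, a1, a2, a3, a4⟩ := h
  obtain ⟨b, b1, b2, b3, b4⟩ := h'
  refine ⟨a * b, ?_, ?_, ?_⟩
  · rw [Polynomial.eval_mul, a1, b1]; rfl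
  · intro n
    rw [Polynomial.coeff_mul, Finset.Nat.sum_antidiagonal_eq_sum_range_succ
      (fun i j => a.coeff i * b.coeff j) n]
    calc ∑ k ∈ Finset.range n.succ, a.coeff k * b.coeff (n - k)
        ≤ ∑ k ∈ Finset.range n.succ, (if k < 73 then 15876 else 0) := by
          refine Finset.sum_le_sum fun k _ => ?_
          by_cases hk : k < 73
          · rw [if_pos hk]
            exact (Nat.mul_le_mul (a2 k) (b2 _))
          · rw [if_neg hk, a3 k (by omega), zero_mul]
      _ ≤ ∑ k ∈ Finset.range 73, 15876 := by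
          rw [← Finset.sum_filter]
          refine Finset.sum_le_sum_of_subset ?_
          intro k hk
          rw [Finset.mem_filter] at hk
          exact Finset.mem_range.2 hk.2
      _ = 1158948 := by simp
  · intro n hn
    rw [Polynomial.coeff_mul, PowerSeries.coeff_mul, Nat.cast_sum]
    refine Finset.sum_congr rfl fun p hp => ?_
    have hp' := Finset.HasAntidiagonal.mem_antidiagonal.1 hp
    rw [Nat.cast_mul, a4 _ (by omega), b4 _ (by omega)]

theorem RepK.shift {K c : ℕ} {f : (ZMod 127)⟦X⟧} (k : ℕ) (h : RepK K c f) :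
    RepK K (Nat.mul (Nat.pow 4294967296 k) c) (X ^ k * f) := by
  obtain ⟨p, a1, a2, a4⟩ := h
  refine ⟨Polynomial.X ^ k * p, ?_, ?_, ?_⟩
  · rw [Polynomial.eval_mul, Polynomial.eval_pow, Polynomial.eval_X, a1]; rfl
  · intro n
    rw [Polynomial.coeff_X_pow_mul']
    split_ifs
    · exact a2 _
    · exact Nat.zero_le _
  · intro n hn
    rw [Polynomial.coeff_X_pow_mul', PowerSeries.coeff_X_pow_mul']
    split_ifs with h
    · exact a4 _ (by omega)
    · simp

theorem redn_succ (n c : ℕ) : redn (n + 1) c =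
    c % 4294967296 % 127 + 4294967296 * redn n (c / 4294967296) := rfl

theorem redn_zero (c : ℕ) : redn 0 c = 0 := rfl

/-- the polynomial obtained by reducing the coefficients. -/
theorem redn_spec (n : ℕ) : ∀ h : Polynomial ℕ, (∀ i, h.coeff i < 4294967296) →
    redn n (h.eval 4294967296) =
      ∑ i ∈ Finset.range n, (h.coeff i % 127) * 4294967296 ^ i := by
  induction n with
  | zero => intro h _; simp [redn_zero]
  | succ n ih =>
    intro h hh
    have e : h.eval 4294967296 = h.coeff 0 + 4294967296 * (h.divX).eval 4294967296 := by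
      conv_lhs => rw [← Polynomial.divX_mul_X_add h]
      rw [Polynomial.eval_add, Polynomial.eval_mul, Polynomial.eval_X, Polynomial.eval_C]
      ring
    rw [redn_succ, e]
    have h0 := hh 0
    rw [Nat.add_mul_mod_self_left, Nat.mod_eq_of_lt h0,
      Nat.add_mul_div_left _ _ (by norm_num : 0 < 4294967296), Nat.div_eq_of_lt h0, zero_add,
      ih _ (fun i => by rw [Polynomial.coeff_divX]; exact hh _), Finset.sum_range_succ',
      Finset.mul_sum]
    rw [add_comm]
    congr 1
    · refine Finset.sum_congr rfl fun i _ => ?_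
      rw [Polynomial.coeff_divX, pow_succ]
      ring
    · simp

theorem red_of_rep {K c : ℕ} {f : (ZMod 127)⟦X⟧} (h : RepK K c f) (hK : K < 4294967296) :
    Red (red c) f := by
  obtain ⟨p, a1, a2, a4⟩ := h
  have hc : ∀ m, (∑ i ∈ Finset.range 73, Polynomial.monomial i (p.coeff i % 127) :
      Polynomial ℕ).coeff m = if m < 73 then p.coeff m % 127 else 0 := by
    intro m
    rw [Polynomial.finsetSum_coeff]
    simp only [Polynomial.coeff_monomial]
    rw [Finset.sum_ite_eq']
    simp only [Finset.mem_range]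
  refine ⟨∑ i ∈ Finset.range 73, Polynomial.monomial i (p.coeff i % 127), ?_, ?_, ?_, ?_⟩
  · rw [Polynomial.eval_finsetSum]
    simp only [Polynomial.eval_monomial]
    rw [← a1]
    exact (redn_spec 73 p (fun i => lt_of_le_of_lt (a2 i) hK)).symm
  · intro n
    rw [hc]
    split_ifs
    · have := Nat.mod_lt (p.coeff n) (by norm_num : 0 < 127)
      omega
    · norm_num
  · intro n hn
    rw [hc, if_neg (by omega)]
  · intro n hn
    rw [hc, if_pos hn, ← a4 n hn, ZMod.natCast_mod]

theorem sm_succ (n : ℕ) (f : ℕ → ℕ) : sm (n + 1) f = Nat.add (sm n f) (f n) := rfl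

theorem sm_zero (f : ℕ → ℕ) : sm 0 f = 0 := rfl

theorem sm_eq (n : ℕ) (f : ℕ → ℕ) : sm n f = ∑ i ∈ Finset.range n, f i := by
  induction n with
  | zero => simp [sm_zero]
  | succ n ih => rw [sm_succ, Finset.sum_range_succ, ← ih]; rfl

theorem RepK.sm {K : ℕ} {c : ℕ → ℕ} {f : ℕ → (ZMod 127)⟦X⟧} (n : ℕ)
    (h : ∀ i, i < n → RepK K (c i) (f i)) :
    RepK (n * K) (sm n c) (∑ i ∈ Finset.range n, f i) := by
  induction n with
  | zero => rw [sm_zero, Finset.sum_range_zero, zero_mul]; exact RepK.zero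
  | succ n ih =>
    rw [sm_succ, Finset.sum_range_succ, Nat.succ_mul]
    exact (ih fun i hi => h i (by omega)).add (h n (by omega))

theorem red_enc {a : ℕ → ℕ} {f : (ZMod 127)⟦X⟧}
    (h : ∀ n, n < 73 → a n ≤ 126 ∧ ((a n : ℕ) : ZMod 127) = PowerSeries.coeff n f) :
    Red (enc a) f := by
  have hc : ∀ m, (∑ i ∈ Finset.range 73, Polynomial.monomial i (a i) :
      Polynomial ℕ).coeff m = if m < 73 then a m else 0 := by
    intro m
    rw [Polynomial.finsetSum_coeff]
    simp only [Polynomial.coeff_monomial]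
    rw [Finset.sum_ite_eq']
    simp only [Finset.mem_range]
  refine ⟨∑ i ∈ Finset.range 73, Polynomial.monomial i (a i), ?_, ?_, ?_, ?_⟩
  · rw [Polynomial.eval_finsetSum]
    simp only [Polynomial.eval_monomial]
    unfold enc
    rw [sm_eq]
    rfl
  · intro n
    rw [hc]
    split_ifs with hn
    · exact (h n hn).1
    · norm_num
  · intro n hn
    rw [hc, if_neg (by omega)]
  · intro n hn
    rw [hc, if_pos hn]
    exact (h n hn).2

theorem Red.mu {c d : ℕ} {f g : (ZMod 127)⟦X⟧} (h : Red c f) (h' : Red d g) :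
    Red (mu c d) (f * g) :=
  red_of_rep (h.mul h') (by norm_num)

/-- digit extraction from a product. -/
theorem digit_mul {c d : ℕ} {f g : (ZMod 127)⟦X⟧} (h : Red c f) (h' : Red d g) :
    ((c * d / 4294967296 ^ 72 % 4294967296 : ℕ) : ZMod 127) =
      PowerSeries.coeff 72 (f * g) := by
  obtain ⟨p, a1, a2, a4⟩ := h.mul h'
  rw [← a4 72 (by norm_num)]
  congr 1
  have key : ∀ (n : ℕ) (q : Polynomial ℕ), (∀ i, q.coeff i < 4294967296) →
      q.eval 4294967296 / 4294967296 ^ n % 4294967296 = q.coeff n := by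
    intro n
    induction n with
    | zero =>
      intro q hq
      rw [pow_zero, Nat.div_one]
      have e : q.eval 4294967296 = q.coeff 0 + 4294967296 * (q.divX).eval 4294967296 := by
        conv_lhs => rw [← Polynomial.divX_mul_X_add q]
        rw [Polynomial.eval_add, Polynomial.eval_mul, Polynomial.eval_X, Polynomial.eval_C]
        ring
      rw [e, Nat.add_mul_mod_self_left, Nat.mod_eq_of_lt (hq 0)]
    | succ n ih =>
      intro q hq
      have e : q.eval 4294967296 = q.coeff 0 + 4294967296 * (q.divX).eval 4294967296 := by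
        conv_lhs => rw [← Polynomial.divX_mul_X_add q]
        rw [Polynomial.eval_add, Polynomial.eval_mul, Polynomial.eval_X, Polynomial.eval_C]
        ring
      rw [pow_succ', ← Nat.div_div_eq_div_mul, e,
        Nat.add_mul_div_left _ _ (by norm_num : 0 < 4294967296), Nat.div_eq_of_lt (hq 0), zero_add,
        ih _ (fun i => by rw [Polynomial.coeff_divX]; exact hq _), Polynomial.coeff_divX]
  have := key 72 p (fun i => lt_of_le_of_lt (a2 i) (by norm_num))
  rw [a1] at this
  exact this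

end Pool.Agent.H946.T4
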